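import Mathlib

/-!
# Solid angles of random cones: definitions

`E d` is the Euclidean space of dimension `d`, `pos x` the positive hull of a finite family of
vectors, `unif d` the uniform distribution on the unit sphere, `solidAngle` the solid angle of a
subset of `E d`.
-/

set_option autoImplicit false

namespace Pool.Agent.K6.H35.SA

open MeasureTheory ProbabilityTheory Filter Topology Set
open scoped ENNReal

/-- The Euclidean space of dimension `d`. -/
abbrev E (d : ℕ) : Type := EuclideanSpace ℝ (Fin d)

/-- The positive hull of the vectors `x i`: the set of the sums of the `l i • x i` with `l i ≥ 0`. -/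
def pos {ι V : Type} [Fintype ι] [AddCommGroup V] [Module ℝ V] (x : ι → V) : Set V :=
  {y | ∃ l : ι → ℝ, (∀ i, 0 ≤ l i) ∧ y = ∑ i, l i • x i}

/-- The uniform distribution on the unit sphere of `E d`: the surface measure, normalised. -/
noncomputable def unif (d : ℕ) : Measure (Metric.sphere (0 : E d) 1) :=
  ((volume : Measure (E d)).toSphere univ)⁻¹ • (volume : Measure (E d)).toSphere

/-- The solid angle of a subset `C` of `E d`: the probability that a uniformly distributed random
unit vector lies in `C`. -/
noncomputable def solidAngle {d : ℕ} (C : Set (E d)) : ℝ := (unif d).real {u | (u : E d) ∈ C}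

/-- The solid angle of the positive hull of the unit vectors `U i`, `i = 1, ..., d`. -/
noncomputable def alpha (d : ℕ) (U : Fin d → Metric.sphere (0 : E d) 1) : ℝ :=
  solidAngle (pos fun i => (U i : E d))

/-- The law of `d` independent uniformly distributed points of the unit sphere of `E d`. -/
noncomputable def law (d : ℕ) : Measure (Fin d → Metric.sphere (0 : E d) 1) :=
  Measure.pi fun _ => unif d

/-- The measure `μ_d` on `(0, ∞)`: `μ_d A = 2 ^ d * d * P (α_d ∈ A)`. -/
noncomputable def muD (d : ℕ) : Measure (Ioi (0 : ℝ)) :=
  ((2 : ℝ≥0∞) ^ d * (d : ℝ≥0∞)) • ((law d).map (alpha d)).comap ((↑) : Ioi (0 : ℝ) → ℝ)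

end Pool.Agent.K6.H35.SA
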