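import Mathlib
import Pool.Agent.K6.H35.SA.Defs

set_option autoImplicit false

namespace Pool.Agent.K6.H35.SA

open MeasureTheory ProbabilityTheory Filter Topology Set
open scoped ENNReal

/-- Fubini for products, lower integrals. -/
theorem lintegral_pi_prod : ∀ (n : ℕ) (f : Fin n → ℝ → ℝ≥0∞), (∀ i, Measurable (f i)) →
    ∫⁻ x : Fin n → ℝ, ∏ i, f i (x i) = ∏ i, ∫⁻ y, f i y := by
  intro n
  induction n with
  | zero => intro f _; simp [volume_pi]
  | succ n ih =>
    intro f hf
    have h := (volume_preserving_piFinSuccAbove (fun _ : Fin (n + 1) => ℝ) 0).symm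
    rw [← h.lintegral_comp_emb (MeasurableEquiv.measurableEmbedding _)]
    have h1 : ∀ z : ℝ × (Fin n → ℝ), ∏ i, f i ((MeasurableEquiv.piFinSuccAbove
        (fun _ : Fin (n + 1) => ℝ) 0).symm z i) = f 0 z.1 * ∏ i, f (Fin.succ i) (z.2 i) := by
      intro z
      rw [Fin.prod_univ_succ]
      rfl
    simp only [h1]
    rw [Measure.volume_eq_prod]
    rw [lintegral_prod_mul (f := f 0) (g := fun y : Fin n → ℝ => ∏ i, f (Fin.succ i) (y i))
      (hf 0).aemeasurable (Measurable.aemeasurable (by fun_prop)), ih _ fun i => hf _,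
      Fin.prod_univ_succ]

theorem pi_withDensity (n : ℕ) (f : ℝ → ℝ≥0∞) (hf : Measurable f)
    [IsProbabilityMeasure ((volume : Measure ℝ).withDensity f)] :
    Measure.pi (fun _ : Fin n => (volume : Measure ℝ).withDensity f) =
      (volume : Measure (Fin n → ℝ)).withDensity (fun x => ∏ i, f (x i)) := by
  refine Measure.pi_eq fun s hs => ?_
  rw [withDensity_apply _ (MeasurableSet.univ_pi hs), ← lintegral_indicator (MeasurableSet.univ_pi hs)]
  have h1 : ∀ x : Fin n → ℝ, (univ.pi s).indicator (fun x => ∏ i, f (x i)) x =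
      ∏ i, (s i).indicator f (x i) := by
    intro x
    by_cases hx : x ∈ univ.pi s
    · rw [indicator_of_mem hx]
      refine Finset.prod_congr rfl fun i _ => ?_
      rw [indicator_of_mem (hx i (mem_univ i))]
    · rw [indicator_of_notMem hx]
      simp only [mem_univ_pi, not_forall] at hx
      obtain ⟨i, hi⟩ := hx
      refine (Finset.prod_eq_zero (Finset.mem_univ i) ?_).symm
      rw [indicator_of_notMem hi]
  simp only [h1]
  rw [lintegral_pi_prod n _ fun i => hf.indicator (hs i)]
  refine Finset.prod_congr rfl fun i _ => ?_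
  rw [lintegral_indicator (hs i), withDensity_apply _ (hs i)]

/-- the unnormalised Gaussian weight -/
noncomputable def gw (r : ℝ) : ℝ≥0∞ := ENNReal.ofReal (Real.exp (-(r / 2)))

theorem measurable_gw : Measurable gw := by unfold gw; fun_prop

/-- the normalising constant -/
noncomputable def gc : ℝ≥0∞ := ENNReal.ofReal (Real.sqrt (2 * Real.pi))⁻¹

theorem gc_pos : gc ≠ 0 := by
  unfold gc
  have : 0 < (Real.sqrt (2 * Real.pi))⁻¹ := by positivity
  simpa using this

theorem gc_top : gc ≠ ⊤ := ENNReal.ofReal_ne_top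

theorem gaussianPDF_eq (x : ℝ) : gaussianPDF 0 1 x = gc * gw (x ^ 2) := by
  unfold gaussianPDF gc gw gaussianPDFReal
  rw [← ENNReal.ofReal_mul (by positivity)]
  congr 2
  · norm_num
  · norm_num; ring

theorem gw_sum {ι : Type} (s : Finset ι) (x : ι → ℝ) : ∏ i ∈ s, gw (x i) = gw (∑ i ∈ s, x i) := by
  unfold gw
  rw [← ENNReal.ofReal_prod_of_nonneg fun i _ => (Real.exp_pos _).le, ← Real.exp_sum]
  congr 2
  rw [Finset.sum_neg_distrib, Finset.sum_div]

/-- the density of the Gaussian measure on `Fin n → ℝ` -/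
theorem pi_gaussian (n : ℕ) : Measure.pi (fun _ : Fin n => gaussianReal 0 1) =
    (volume : Measure (Fin n → ℝ)).withDensity (fun x => gc ^ n * gw (∑ i, x i ^ 2)) := by
  have h0 : gaussianReal 0 1 = (volume : Measure ℝ).withDensity (gaussianPDF 0 1) :=
    gaussianReal_of_var_ne_zero 0 one_ne_zero
  have : IsProbabilityMeasure ((volume : Measure ℝ).withDensity (gaussianPDF 0 1)) := by
    rw [← h0]; infer_instance
  rw [h0, pi_withDensity n _ (measurable_gaussianPDF 0 1)]
  congr 1
  ext x
  simp only [gaussianPDF_eq, Finset.prod_mul_distrib, gw_sum, Finset.prod_const, Finset.card_univ,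
    Fintype.card_fin]

theorem stdGaussian_density (n : ℕ) : stdGaussian (E n) =
    (volume : Measure (E n)).withDensity (fun x => gc ^ n * gw (‖x‖ ^ 2)) := by
  rw [← map_pi_eq_stdGaussian, pi_gaussian]
  have h := PiLp.volume_preserving_toLp (Fin n)
  have hm : Measurable (fun x : E n => gc ^ n * gw (‖x‖ ^ 2)) :=
    (measurable_gw.comp (by fun_prop)).const_mul _
  ext s hs
  rw [Measure.map_apply (by fun_prop) hs, withDensity_apply _ (hs.preimage (by fun_prop)),
    withDensity_apply _ hs, ← h.map_eq, setLIntegral_map hs hm (by fun_prop)]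
  refine lintegral_congr fun x => ?_
  rw [EuclideanSpace.norm_sq_eq]
  simp

theorem pi_stdGaussian (m n : ℕ) : Measure.pi (fun _ : Fin m => stdGaussian (E n)) =
    (Measure.pi (fun _ : Fin m => Measure.pi (fun _ : Fin n => gaussianReal 0 1))).map
      (fun U i => WithLp.toLp 2 (U i)) := by
  rw [Measure.pi_map_pi fun i => Measurable.aemeasurable (by fun_prop)]
  simp_rw [map_pi_eq_stdGaussian]

section dir
variable (d : ℕ)

instance : Nonempty (Metric.sphere (0 : E (d + 1)) 1) :=
  NormedSpace.sphere_nonempty_rclike ℝ zero_le_one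

/-- the direction of a vector -/
noncomputable def dir (x : E (d + 1)) : Metric.sphere (0 : E (d + 1)) 1 := by
  classical
  exact if h : x ∈ ({0}ᶜ : Set (E (d + 1))) then (homeomorphUnitSphereProd (E (d + 1)) ⟨x, h⟩).1
    else Classical.arbitrary _

theorem dir_of_ne {x : E (d + 1)} (h : x ≠ 0) :
    ((dir d x : Metric.sphere (0 : E (d + 1)) 1) : E (d + 1)) = ‖x‖⁻¹ • x := by
  unfold dir
  rw [dif_pos (by simpa using h)]
  simp

theorem measurable_dir : Measurable (dir d) := by
  classical
  unfold dir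
  refine Measurable.dite (s := ({0}ᶜ : Set (E (d + 1))))
    (f := fun x => (homeomorphUnitSphereProd (E (d + 1)) x).1) ?_ measurable_const
    (measurableSet_singleton (0 : E (d + 1))).compl
  exact measurable_fst.comp (homeomorphUnitSphereProd (E (d + 1))).measurable

theorem dir_lintegral (F : Metric.sphere (0 : E (d + 1)) 1 → ℝ≥0∞) (hF : Measurable F) :
    ∫⁻ x, F (dir d x) ∂(stdGaussian (E (d + 1))) =
      (∫⁻ u, F u ∂((volume : Measure (E (d + 1))).toSphere)) *
      ∫⁻ r : Ioi (0 : ℝ), gc ^ (d + 1) * gw ((r : ℝ) ^ 2) ∂(.volumeIoiPow d) := by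
  have hm : Measurable (fun x : E (d + 1) => gc ^ (d + 1) * gw (‖x‖ ^ 2)) :=
    (measurable_gw.comp (by fun_prop)).const_mul _
  have hFd : Measurable fun x => F (dir d x) := hF.comp (measurable_dir d)
  rw [stdGaussian_density, lintegral_withDensity_eq_lintegral_mul _ hm hFd]
  set g : E (d + 1) → ℝ≥0∞ := (fun x => gc ^ (d + 1) * gw (‖x‖ ^ 2)) * fun x => F (dir d x) with hg
  have h1 : ∫⁻ x : E (d + 1), g x =
      ∫⁻ x : ({(0)}ᶜ : Set (E (d + 1))), g x.1 ∂((volume : Measure (E (d + 1))).comap (↑)) := by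
    rw [lintegral_subtype_comap (measurableSet_singleton _).compl, restrict_compl_singleton]
  have h2 : ∀ x : ({(0)}ᶜ : Set (E (d + 1))), g x.1 =
      (fun p : Metric.sphere (0 : E (d + 1)) 1 × Ioi (0 : ℝ) =>
        F p.1 * (gc ^ (d + 1) * gw ((p.2 : ℝ) ^ 2))) (homeomorphUnitSphereProd (E (d + 1)) x) := by
    intro x
    rw [hg, Pi.mul_apply, mul_comm]
    have h3 : dir d x.1 = (homeomorphUnitSphereProd (E (d + 1)) x).1 := by
      unfold dir
      rw [dif_pos x.2]
    rw [h3]
    simp
  rw [h1]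
  simp_rw [h2]
  have h4 := (volume : Measure (E (d + 1))).measurePreserving_homeomorphUnitSphereProd
  have h5 : Module.finrank ℝ (E (d + 1)) - 1 = d := by simp
  rw [h5] at h4
  refine (h4.lintegral_comp_emb (Homeomorph.measurableEmbedding _)
    (fun p : Metric.sphere (0 : E (d + 1)) 1 × Ioi (0 : ℝ) =>
        F p.1 * (gc ^ (d + 1) * gw ((p.2 : ℝ) ^ 2)))).trans ?_
  have h6 : Measurable fun r : Ioi (0 : ℝ) => gc ^ (d + 1) * gw ((r : ℝ) ^ 2) :=
    (measurable_gw.comp (by fun_prop)).const_mul _
  exact lintegral_prod_mul hF.aemeasurable h6.aemeasurable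

theorem toSphere_univ_ne_zero : (volume : Measure (E (d + 1))).toSphere univ ≠ 0 := by
  rw [Ne, Measure.measure_univ_eq_zero]
  exact Measure.toSphere_ne_zero _

instance : IsProbabilityMeasure (unif (d + 1)) := by
  constructor
  unfold unif
  rw [Measure.smul_apply, smul_eq_mul,
    ENNReal.inv_mul_cancel (toSphere_univ_ne_zero d) (measure_ne_top _ _)]

theorem map_dir : (stdGaussian (E (d + 1))).map (dir d) = unif (d + 1) := by
  have h0 := dir_lintegral d (fun _ => 1) measurable_const
  rw [lintegral_one, lintegral_one, measure_univ] at h0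
  ext s hs
  have h1 := dir_lintegral d (s.indicator 1) (measurable_one.indicator hs)
  rw [lintegral_indicator_one hs] at h1
  rw [Measure.map_apply (measurable_dir d) hs]
  have h2 : ∀ x, s.indicator (1 : Metric.sphere (0 : E (d + 1)) 1 → ℝ≥0∞) (dir d x) =
    (dir d ⁻¹' s).indicator 1 x := fun x => rfl
  simp_rw [h2] at h1
  rw [lintegral_indicator_one (measurable_dir d hs)] at h1
  rw [h1]
  unfold unif
  rw [Measure.smul_apply, smul_eq_mul, mul_comm]
  congr 1
  exact ENNReal.eq_inv_of_mul_eq_one_left (by rw [mul_comm]; exact h0.symm)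

end dir

end Pool.Agent.K6.H35.SA
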