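import Mathlib
import Pool.Agent.K6.H35.SA.Gauss

set_option autoImplicit false

namespace Pool.Agent.K6.H35.SA

open MeasureTheory ProbabilityTheory Filter Topology Set
open scoped ENNReal

theorem measurableSet_graph (m : ℕ) (V : Type) [NormedAddCommGroup V] [NormedSpace ℝ V]
    [FiniteDimensional ℝ V] [MeasurableSpace V] [BorelSpace V] :
    MeasurableSet {p : (Fin m → V) × V | p.2 ∈ pos p.1} := by
  have : ProperSpace V := FiniteDimensional.proper ℝ V
  have h1 : IsClosed {q : (Fin m → ℝ) × ((Fin m → V) × V) | (∀ i, 0 ≤ q.1 i) ∧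
      q.2.2 = ∑ i, q.1 i • q.2.1 i} := by
    refine IsClosed.and ?_ (isClosed_eq (by fun_prop) (by fun_prop))
    have : {q : (Fin m → ℝ) × ((Fin m → V) × V) | ∀ i, 0 ≤ q.1 i} =
      ⋂ i, {q : (Fin m → ℝ) × ((Fin m → V) × V) | 0 ≤ q.1 i} := by ext; simp
    rw [this]
    exact isClosed_iInter fun i => isClosed_le continuous_const (by fun_prop)
  have h2 : {p : (Fin m → V) × V | p.2 ∈ pos p.1} = Prod.snd ''
      {q : (Fin m → ℝ) × ((Fin m → V) × V) | (∀ i, 0 ≤ q.1 i) ∧
      q.2.2 = ∑ i, q.1 i • q.2.1 i} := by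
    ext p
    constructor
    · rintro ⟨l, h, h'⟩
      exact ⟨(l, p), ⟨h, h'⟩, rfl⟩
    · rintro ⟨⟨l, q⟩, ⟨h, h'⟩, rfl⟩
      exact ⟨l, h, h'⟩
  rw [h2]
  have h3 : IsSigmaCompact {q : (Fin m → ℝ) × ((Fin m → V) × V) | (∀ i, 0 ≤ q.1 i) ∧
      q.2.2 = ∑ i, q.1 i • q.2.1 i} :=
    isSigmaCompact_univ.of_isClosed_subset h1 (subset_univ _)
  obtain ⟨K, hK, hK2⟩ := h3.image continuous_snd
  rw [← hK2]
  exact MeasurableSet.iUnion fun n => (hK n).isClosed.measurableSet

theorem measurableSet_pos {m : ℕ} {V : Type} [NormedAddCommGroup V] [NormedSpace ℝ V]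
    [FiniteDimensional ℝ V] [MeasurableSpace V] [BorelSpace V] (U : Fin m → V) :
    MeasurableSet (pos U) := by
  have := measurableSet_graph m V
  exact this.preimage (f := fun z => (U, z)) (by fun_prop)

/-- the Gaussian measure of the positive hull -/
noncomputable def gC {m n : ℕ} (U : Fin m → E n) : ℝ≥0∞ := stdGaussian (E n) (pos U)

theorem measurable_gC {m n : ℕ} : Measurable (gC : (Fin m → E n) → ℝ≥0∞) :=
  measurable_measure_prodMk_left (measurableSet_graph m (E n))

theorem gC_le_one {m n : ℕ} (U : Fin m → E n) : gC U ≤ 1 := prob_le_one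

/-- the law of `m` independent Gaussian vectors in `E n` -/
noncomputable def gl (m n : ℕ) : Measure (Fin m → E n) := Measure.pi fun _ => stdGaussian (E n)

instance (m n : ℕ) : IsProbabilityMeasure (gl m n) := by unfold gl; infer_instance

theorem pos_smul {ι V : Type} [Fintype ι] [AddCommGroup V] [Module ℝ V] (x : ι → V) (c : ι → ℝ)
    (hc : ∀ i, 0 < c i) : pos (fun i => c i • x i) = pos x := by
  ext y
  constructor
  · rintro ⟨l, hl, rfl⟩
    exact ⟨fun i => l i * c i, fun i => mul_nonneg (hl i) (hc i).le, by simp [mul_smul]⟩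
  · rintro ⟨l, hl, rfl⟩
    refine ⟨fun i => l i * (c i)⁻¹, fun i => mul_nonneg (hl i) (inv_pos.2 (hc i)).le, ?_⟩
    refine Finset.sum_congr rfl fun i _ => ?_
    rw [smul_smul, mul_assoc, inv_mul_cancel₀ (hc i).ne', mul_one]

theorem smul_mem_pos {ι V : Type} [Fintype ι] [AddCommGroup V] [Module ℝ V] {x : ι → V} {y : V}
    {c : ℝ} (hc : 0 ≤ c) (hy : y ∈ pos x) : c • y ∈ pos x := by
  obtain ⟨l, hl, rfl⟩ := hy
  exact ⟨fun i => c * l i, fun i => mul_nonneg hc (hl i), by simp [Finset.smul_sum, mul_smul]⟩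

theorem stdGaussian_singleton (d : ℕ) : stdGaussian (E (d + 1)) {0} = 0 := by
  rw [stdGaussian_density]
  exact withDensity_absolutelyContinuous _ _ (measure_singleton _)

theorem ae_ne_zero (d : ℕ) : ∀ᵐ x ∂(stdGaussian (E (d + 1))), x ≠ 0 := by
  rw [ae_iff]
  simpa using stdGaussian_singleton d

theorem ae_gl_ne_zero (m d : ℕ) : ∀ᵐ U ∂(gl m (d + 1)), ∀ i, U i ≠ 0 := by
  rw [ae_all_iff]
  intro i
  exact (measurePreserving_eval (fun _ : Fin m => stdGaussian (E (d + 1))) i).quasiMeasurePreserving.ae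
    (ae_ne_zero d)

theorem alpha_dir (d : ℕ) (U : Fin (d + 1) → E (d + 1)) (hU : ∀ i, U i ≠ 0) :
    alpha (d + 1) (fun i => dir d (U i)) = (gC U).toReal := by
  have h1 : (pos fun i => ((dir d (U i) : Metric.sphere (0 : E (d + 1)) 1) : E (d + 1))) =
      pos U := by
    simp_rw [fun i => dir_of_ne d (hU i)]
    exact pos_smul U (fun i => ‖U i‖⁻¹) fun i => inv_pos.2 (norm_pos_iff.2 (hU i))
  unfold alpha solidAngle
  have h3 : MeasurableSet {u : Metric.sphere (0 : E (d + 1)) 1 | (u : E (d + 1)) ∈ pos U} :=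
    (measurableSet_pos U).preimage measurable_subtype_coe
  rw [h1, ← map_dir, measureReal_def, Measure.map_apply (measurable_dir d) h3]
  unfold gC
  congr 1
  refine measure_congr ?_
  filter_upwards [ae_ne_zero d] with x hx
  refine propext ⟨fun h => ?_, fun h => ?_⟩
  · have h2 : ((dir d x : Metric.sphere (0 : E (d + 1)) 1) : E (d + 1)) ∈ pos U := h
    rw [dir_of_ne d hx] at h2
    have := smul_mem_pos (norm_nonneg x) h2
    rwa [smul_smul, mul_inv_cancel₀ (norm_ne_zero_iff.2 hx), one_smul] at this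
  · have h2 : ((dir d x : Metric.sphere (0 : E (d + 1)) 1) : E (d + 1)) ∈ pos U := by
      rw [dir_of_ne d hx]
      exact smul_mem_pos (inv_nonneg.2 (norm_nonneg x)) h
    exact h2

theorem law_eq (d : ℕ) : law (d + 1) = (gl (d + 1) (d + 1)).map fun U i => dir d (U i) := by
  unfold law gl
  rw [Measure.pi_map_pi fun i => (measurable_dir d).aemeasurable]
  simp_rw [map_dir]

theorem measurable_alpha (d : ℕ) : Measurable (alpha (d + 1)) := by
  unfold alpha solidAngle
  refine Measurable.ennreal_toReal ?_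
  refine measurable_measure_prodMk_left (ν := unif (d + 1)) (s := {p : (Fin (d + 1) → Metric.sphere (0 : E (d + 1)) 1) ×
    Metric.sphere (0 : E (d + 1)) 1 | (p.2 : E (d + 1)) ∈ pos fun i => (p.1 i : E (d + 1))}) ?_
  exact (measurableSet_graph (d + 1) (E (d + 1))).preimage
    (f := fun p : (Fin (d + 1) → Metric.sphere (0 : E (d + 1)) 1) × Metric.sphere (0 : E (d + 1)) 1 =>
      ((fun i => (p.1 i : E (d + 1))), (p.2 : E (d + 1)))) (by fun_prop)

theorem map_alpha (d : ℕ) : (law (d + 1)).map (alpha (d + 1)) =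
    (gl (d + 1) (d + 1)).map fun U => (gC U).toReal := by
  rw [law_eq, Measure.map_map (measurable_alpha d)]
  · refine Measure.map_congr ?_
    filter_upwards [ae_gl_ne_zero (d + 1) d] with U hU
    exact alpha_dir d U hU
  · exact measurable_pi_lambda _ fun i => (measurable_dir d).comp (measurable_pi_apply i)

end Pool.Agent.K6.H35.SA
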