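import Mathlib

set_option autoImplicit false

namespace Pool.Agent.K6.H35.SA

open MeasureTheory ProbabilityTheory Filter Topology Set
open scoped ENNReal

theorem integrable_exp_abs {q : ℝ} (hq : 0 < q) : Integrable fun t : ℝ => Real.exp (-(q * |t|)) := by
  rw [← integrableOn_univ, ← Iic_union_Ioi (a := (0 : ℝ))]
  refine IntegrableOn.union ?_ ?_
  · refine (integrableOn_exp_mul_Iic hq 0).congr_fun (fun t ht => ?_) measurableSet_Iic
    simp only
    rw [abs_of_nonpos ht]
    ring_nf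
  · refine (integrableOn_exp_mul_Ioi (a := -q) (by linarith) 0).congr_fun (fun t ht => ?_)
      measurableSet_Ioi
    simp only
    rw [abs_of_pos ht]
    ring_nf

theorem integral_exp_abs {q : ℝ} (hq : 0 < q) : ∫ t : ℝ, Real.exp (-(q * |t|)) = 2 / q := by
  rw [integral_comp_abs (f := fun t => Real.exp (-(q * t)))]
  have : ∀ t : ℝ, Real.exp (-(q * t)) = Real.exp ((-q) * t) := fun t => by ring_nf
  simp_rw [this]
  rw [integral_exp_mul_Ioi (by linarith) 0]
  simp
  ring

/-- the maximum of the Gaussian density -/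
noncomputable def f0 : ℝ := gaussianPDFReal 0 1 0

theorem f0_pos : 0 < f0 := gaussianPDFReal_pos 0 1 0 one_ne_zero

theorem f0_eq : f0 = (Real.sqrt (2 * Real.pi))⁻¹ := by
  unfold f0 gaussianPDFReal; simp

theorem f0_le : f0 ≤ 1 / 2 := by
  rw [f0_eq, one_div]
  refine inv_anti₀ (by norm_num) ?_
  rw [show (2 : ℝ) = Real.sqrt (2 * 2) by rw [Real.sqrt_mul_self (by norm_num)]]
  refine Real.sqrt_le_sqrt ?_
  rw [Real.sqrt_mul_self (by norm_num)]
  nlinarith [Real.pi_gt_three]

theorem pdf_le (t : ℝ) : gaussianPDFReal 0 1 t ≤ f0 := by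
  unfold f0 gaussianPDFReal
  refine mul_le_mul_of_nonneg_left ?_ (by positivity)
  refine Real.exp_le_exp.2 ?_
  have h : 0 ≤ t ^ 2 := sq_nonneg t
  simp only [NNReal.coe_one, sub_zero]
  linarith

theorem pdf_cont : Continuous (gaussianPDFReal 0 1) := by
  unfold gaussianPDFReal
  fun_prop

section
variable (y : ℝ → ℝ) (hy : Measurable y) (h0 : ∀ t, 0 ≤ y t) (h1 : ∀ t, y t ≤ 1)
  {q : ℝ} (hq0 : 0 < q) (hq1 : q ≤ 1) (hq : ∀ t, q * min |t| 1 ≤ y t)
include hy h0 h1 hq0 hq

/-- the part of small `t` -/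
noncomputable def F (y : ℝ → ℝ) (d : ℕ) (t : ℝ) : ℝ :=
  (Icc (-1 : ℝ) 1).indicator (fun t => gaussianPDFReal 0 1 t * (1 - y t) ^ d) t

theorem F_bound (d : ℕ) (hd : 1 ≤ d) (t : ℝ) : ‖F y d (t / d)‖ ≤ f0 * Real.exp (-(q * |t|)) := by
  have hd0 : (0 : ℝ) < d := by exact_mod_cast hd
  unfold F
  by_cases ht : t / d ∈ Icc (-1 : ℝ) 1
  · rw [indicator_of_mem ht, Real.norm_of_nonneg (mul_nonneg (gaussianPDFReal_nonneg _ _ _)
      (pow_nonneg (by linarith [h1 (t / d)]) _))]
    refine mul_le_mul (pdf_le _) ?_ (pow_nonneg (by linarith [h1 (t / d)]) _) f0_pos.le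
    have h2 : |t / d| ≤ 1 := abs_le.2 ht
    have h3 := hq (t / d)
    rw [min_eq_left h2] at h3
    calc (1 - y (t / d)) ^ d ≤ (Real.exp (-(q * |t / d|))) ^ d := by
          refine pow_le_pow_left₀ (by linarith [h1 (t / d)]) ?_ d
          have := Real.add_one_le_exp (-(q * |t / d|))
          linarith
      _ = Real.exp (-(q * |t|)) := by
          rw [← Real.exp_nat_mul, abs_div, abs_of_pos hd0]
          congr 1
          field_simp
  · rw [indicator_of_notMem ht, norm_zero]
    exact mul_nonneg f0_pos.le (Real.exp_pos _).le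

theorem meas_F (d : ℕ) : Measurable (F y d) := by
  unfold F
  exact Measurable.indicator (by
    have := measurable_gaussianPDFReal 0 1
    fun_prop) measurableSet_Icc

theorem split_int (d : ℕ) : ∫ t, (1 - y t) ^ d ∂(gaussianReal 0 1) =
    (∫ t, F y d t) + ∫ t in (Icc (-1 : ℝ) 1)ᶜ, (1 - y t) ^ d ∂(gaussianReal 0 1) := by
  have hint : Integrable (fun t => (1 - y t) ^ d) (gaussianReal 0 1) := by
    refine Integrable.of_bound (Measurable.aestronglyMeasurable (by fun_prop)) 1
      (Eventually.of_forall fun t => ?_)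
    rw [Real.norm_of_nonneg (pow_nonneg (by linarith [h1 t]) _)]
    exact pow_le_one₀ (by linarith [h1 t]) (by linarith [h0 t])
  rw [← integral_add_compl measurableSet_Icc hint]
  congr 1
  rw [← integral_indicator measurableSet_Icc, integral_gaussianReal_eq_integral_smul one_ne_zero]
  refine integral_congr_ae (Eventually.of_forall fun t => ?_)
  simp only [F, smul_eq_mul]
  by_cases ht : t ∈ Icc (-1 : ℝ) 1
  · rw [indicator_of_mem ht, indicator_of_mem ht]
  · rw [indicator_of_notMem ht, indicator_of_notMem ht, mul_zero]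

include hq1 in
theorem tail_le (d : ℕ) : ‖∫ t in (Icc (-1 : ℝ) 1)ᶜ, (1 - y t) ^ d ∂(gaussianReal 0 1)‖ ≤
    (1 - q) ^ d := by
  have h2 := norm_setIntegral_le_of_norm_le_const (μ := gaussianReal 0 1) (f := fun t => (1 - y t) ^ d)
    (s := (Icc (-1 : ℝ) 1)ᶜ) (C := (1 - q) ^ d) (measure_lt_top _ _) ?_
  · refine h2.trans ?_
    have h3 : (gaussianReal 0 1).real (Icc (-1 : ℝ) 1)ᶜ ≤ 1 := measureReal_le_one
    exact mul_le_of_le_one_right (pow_nonneg (by linarith) _) h3
  · intro t ht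
    rw [Real.norm_of_nonneg (pow_nonneg (by linarith [h1 t]) _)]
    refine pow_le_pow_left₀ (by linarith [h1 t]) ?_ d
    have h4 : 1 ≤ |t| := by
      by_contra hc
      rw [not_le] at hc
      exact ht (abs_le.1 hc.le)
    have h5 := hq t
    rw [min_eq_right h4] at h5
    linarith

theorem lap_aux (d : ℕ) (hd : 1 ≤ d) : (d : ℝ) * ∫ t, F y d t = ∫ t, F y d (t / d) := by
  rw [Measure.integral_comp_div]
  simp

include hq1 in
/-- the bound -/
theorem lap_bound (d : ℕ) : (d : ℝ) * ∫ t, (1 - y t) ^ d ∂(gaussianReal 0 1) ≤ 2 / q := by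
  rcases Nat.eq_zero_or_pos d with rfl | hd
  · simp
    positivity
  have hd0 : (0 : ℝ) < d := by exact_mod_cast hd
  rw [split_int y hy h0 h1 hq0 hq, mul_add, lap_aux y hy h0 h1 hq0 hq d hd]
  have h2 : ∫ t, F y d (t / d) ≤ f0 * (2 / q) := by
    rw [← integral_exp_abs hq0, ← integral_const_mul]
    refine (le_abs_self _).trans ?_
    rw [← Real.norm_eq_abs]
    exact norm_integral_le_of_norm_le ((integrable_exp_abs hq0).const_mul _)
      (Eventually.of_forall fun t => F_bound y hy h0 h1 hq0 hq d hd t)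
  have h3 := (le_abs_self _).trans ((Real.norm_eq_abs _).symm.le.trans
    (tail_le y hy h0 h1 hq0 hq1 hq d))
  have h4 : (d : ℝ) * (1 - q) ^ d ≤ 1 / q := by
    have h5 : (1 - q) ^ d ≤ (Real.exp (-q)) ^ d := by
      refine pow_le_pow_left₀ (by linarith) ?_ d
      have := Real.add_one_le_exp (-q)
      linarith
    rw [← Real.exp_nat_mul] at h5
    have h6 : (d : ℝ) * q * Real.exp (d * -q) ≤ 1 := by
      have h7 := Real.add_one_le_exp (d * q)
      have h8 : Real.exp (d * -q) = (Real.exp (d * q))⁻¹ := by rw [← Real.exp_neg]; ring_nf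
      rw [h8, ← div_eq_mul_inv, div_le_one (Real.exp_pos _)]
      linarith
    rw [le_div_iff₀ hq0]
    calc (d : ℝ) * (1 - q) ^ d * q ≤ d * Real.exp (d * -q) * q := by gcongr
      _ = (d : ℝ) * q * Real.exp (d * -q) := by ring
      _ ≤ 1 := h6
  have h5 : (d : ℝ) * ∫ t in (Icc (-1 : ℝ) 1)ᶜ, (1 - y t) ^ d ∂(gaussianReal 0 1) ≤ 1 / q :=
    (mul_le_mul_of_nonneg_left h3 hd0.le).trans h4
  have h6 : f0 * (2 / q) ≤ 1 / q := by
    have := f0_le
    rw [mul_div_assoc', div_le_div_iff_of_pos_right hq0]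
    linarith
  calc _ ≤ 1 / q + 1 / q := add_le_add (h2.trans h6) h5
    _ = 2 / q := by ring

include hq1 in
/-- the limit -/
theorem lap_tendsto {c : ℝ} (hc : Tendsto (fun t => y t / |t|) (𝓝[≠] 0) (𝓝 c)) :
    Tendsto (fun d : ℕ => (d : ℝ) * ∫ t, (1 - y t) ^ d ∂(gaussianReal 0 1)) atTop
      (𝓝 (∫ t, f0 * Real.exp (-(c * |t|)))) := by
  have h2 : Tendsto (fun d : ℕ => ∫ t, F y d (t / d)) atTop (𝓝 (∫ t, f0 * Real.exp (-(c * |t|)))) := by
    refine tendsto_integral_filter_of_dominated_convergence (fun t => f0 * Real.exp (-(q * |t|)))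
      ?_ ?_ ((integrable_exp_abs hq0).const_mul _) ?_
    · refine Eventually.of_forall fun d => Measurable.aestronglyMeasurable ?_
      exact (meas_F y hy h0 h1 hq0 hq d).comp (by fun_prop)
    · filter_upwards [eventually_ge_atTop 1] with d hd
      exact Eventually.of_forall fun t => F_bound y hy h0 h1 hq0 hq d hd t
    · have hne : ∀ᵐ t : ℝ, t ≠ 0 := by
        rw [ae_iff]
        simp
      filter_upwards [hne] with t ht
      have ht0 : Tendsto (fun d : ℕ => t / (d : ℝ)) atTop (𝓝 0) :=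
        tendsto_const_div_atTop_nhds_zero_nat t
      have ht1 : Tendsto (fun d : ℕ => t / (d : ℝ)) atTop (𝓝[≠] 0) := by
        refine tendsto_nhdsWithin_iff.2 ⟨ht0, ?_⟩
        filter_upwards [eventually_ge_atTop 1] with d hd
        have hd0 : (d : ℝ) ≠ 0 := by
          have : d ≠ 0 := by omega
          exact_mod_cast this
        exact div_ne_zero ht hd0
      have h3 := hc.comp ht1
      have h4 : Tendsto (fun d : ℕ => (d : ℝ) * (-(y (t / d)))) atTop (𝓝 (-(c * |t|))) := by
        have h5 : Tendsto (fun d : ℕ => -((y (t / d) / |t / d|) * |t|)) atTop (𝓝 (-(c * |t|))) :=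
          (h3.mul_const _).neg
        refine h5.congr' ?_
        filter_upwards [eventually_ge_atTop 1] with d hd
        have hd0 : (0 : ℝ) < d := by exact_mod_cast hd
        have hta : |t| ≠ 0 := abs_ne_zero.2 ht
        rw [abs_div, abs_of_pos hd0]
        field_simp
      have h6 := Real.tendsto_one_add_pow_exp_of_tendsto h4
      have h7 : Tendsto (fun d : ℕ => gaussianPDFReal 0 1 (t / d)) atTop (𝓝 f0) :=
        (pdf_cont.tendsto 0).comp ht0
      have h8 := h7.mul h6
      refine h8.congr' ?_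
      have h9 : ∀ᶠ d : ℕ in atTop, t / (d : ℝ) ∈ Icc (-1 : ℝ) 1 :=
        ht0.eventually (Icc_mem_nhds (by norm_num) (by norm_num))
      filter_upwards [h9] with d hd
      simp only [F]
      rw [indicator_of_mem hd]
      ring
  have h3 : Tendsto (fun d : ℕ => (d : ℝ) *
      ∫ t in (Icc (-1 : ℝ) 1)ᶜ, (1 - y t) ^ d ∂(gaussianReal 0 1)) atTop (𝓝 0) := by
    have h4 : Tendsto (fun d : ℕ => (d : ℝ) * (1 - q) ^ d) atTop (𝓝 0) :=
      tendsto_self_mul_const_pow_of_lt_one (by linarith) (by linarith)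
    refine squeeze_zero_norm (fun d => ?_) h4
    rw [norm_mul, Real.norm_of_nonneg (Nat.cast_nonneg d)]
    exact mul_le_mul_of_nonneg_left (tail_le y hy h0 h1 hq0 hq1 hq d) (Nat.cast_nonneg d)
  have h4 := h2.add h3
  rw [add_zero] at h4
  refine h4.congr' ?_
  filter_upwards [eventually_ge_atTop 1] with d hd
  rw [split_int y hy h0 h1 hq0 hq, mul_add, lap_aux y hy h0 h1 hq0 hq d hd]

end

end Pool.Agent.K6.H35.SA
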