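import Mathlib
import Pool.Agent.K6.H35.SA.Lap

set_option autoImplicit false

namespace Pool.Agent.K6.H35.SA

open MeasureTheory ProbabilityTheory Filter Topology Set
open scoped ENNReal

/-- the standard normal distribution -/
noncomputable abbrev N1 : Measure ℝ := gaussianReal 0 1

theorem pdf_anti {s x : ℝ} (h : |s| ≤ |x|) : gaussianPDFReal 0 1 x ≤ gaussianPDFReal 0 1 s := by
  unfold gaussianPDFReal
  refine mul_le_mul_of_nonneg_left ?_ (by positivity)
  refine Real.exp_le_exp.2 ?_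
  have h : s ^ 2 ≤ x ^ 2 := sq_le_sq.2 h
  simp only [NNReal.coe_one, sub_zero]
  linarith

theorem N1_real (s : Set ℝ) (hs : MeasurableSet s) : N1.real s = ∫ x in s, gaussianPDFReal 0 1 x := by
  rw [measureReal_def, gaussianReal_apply_eq_integral 0 one_ne_zero,
    ENNReal.toReal_ofReal (setIntegral_nonneg hs fun x _ => gaussianPDFReal_nonneg 0 1 x)]

/-- the probability of a small interval -/
noncomputable def psi (x : ℝ) : ℝ := N1.real (Ioo (-x) x)

theorem psi_le {x : ℝ} (hx : 0 ≤ x) : psi x ≤ 2 * f0 * x := by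
  unfold psi
  rw [N1_real _ measurableSet_Ioo]
  have h1 : ∫ t in Ioo (-x) x, gaussianPDFReal 0 1 t ≤ ∫ t in Ioo (-x) x, f0 :=
    setIntegral_mono_on (integrable_gaussianPDFReal 0 1).integrableOn (by simp)
      measurableSet_Ioo fun t _ => pdf_le t
  refine h1.trans ?_
  rw [setIntegral_const, measureReal_def, Real.volume_Ioo, ENNReal.toReal_ofReal (by linarith)]
  simp only [smul_eq_mul]
  linarith

theorem le_psi {x : ℝ} (hx : 0 ≤ x) : 2 * gaussianPDFReal 0 1 x * x ≤ psi x := by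
  unfold psi
  rw [N1_real _ measurableSet_Ioo]
  have h1 : ∫ t in Ioo (-x) x, gaussianPDFReal 0 1 x ≤ ∫ t in Ioo (-x) x, gaussianPDFReal 0 1 t :=
    setIntegral_mono_on (by simp) (integrable_gaussianPDFReal 0 1).integrableOn
      measurableSet_Ioo fun t ht => pdf_anti (by
        rw [abs_of_nonneg hx]
        exact (abs_lt.2 ht).le)
  refine le_trans ?_ h1
  rw [setIntegral_const, measureReal_def, Real.volume_Ioo, ENNReal.toReal_ofReal (by linarith)]
  simp only [smul_eq_mul]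
  linarith

theorem psi_nonpos {x : ℝ} (hx : x ≤ 0) : psi x = 0 := by
  unfold psi
  rw [Ioo_eq_empty (by linarith)]
  simp

theorem psi_nonneg (x : ℝ) : 0 ≤ psi x := measureReal_nonneg

theorem psi_mono : Monotone psi := fun x y h =>
  measureReal_mono (Ioo_subset_Ioo (by linarith) h)

theorem psi_lim : Tendsto (fun x => psi x / x) (𝓝[>] 0) (𝓝 (2 * f0)) := by
  have h1 : Tendsto (fun x => 2 * gaussianPDFReal 0 1 x) (𝓝[>] (0 : ℝ)) (𝓝 (2 * f0)) :=
    ((pdf_cont.tendsto 0).mono_left nhdsWithin_le_nhds).const_mul 2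
  refine tendsto_of_tendsto_of_tendsto_of_le_of_le' h1 tendsto_const_nhds ?_ ?_
  · filter_upwards [self_mem_nhdsWithin] with x hx
    rw [le_div_iff₀ hx]
    exact le_psi hx.le
  · filter_upwards [self_mem_nhdsWithin] with x hx
    rw [div_le_iff₀ hx]
    exact psi_le hx.le

/-- the constants -/
noncomputable def p1 : ℝ := N1.real (Iio (-1))

theorem N1_pos {s : Set ℝ} (hs : IsOpen s) (hne : s.Nonempty) : 0 < N1.real s := by
  rw [measureReal_def, ENNReal.toReal_pos_iff]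
  refine ⟨?_, measure_lt_top _ _⟩
  rw [pos_iff_ne_zero]
  intro h
  have := gaussianReal_absolutelyContinuous' 0 one_ne_zero h
  exact (hs.measure_pos volume hne).ne' this

theorem p1_pos : 0 < p1 := N1_pos isOpen_Iio ⟨-2, by norm_num⟩

theorem p1_le : p1 ≤ 1 := measureReal_le_one

noncomputable def c0 : ℝ := 2 * p1 * gaussianPDFReal 0 1 1

theorem c0_pos : 0 < c0 := by
  have := gaussianPDFReal_pos 0 1 1 one_ne_zero
  have := p1_pos
  unfold c0
  positivity

theorem c0_le : c0 ≤ 1 := by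
  have h1 := pdf_le 1
  have h2 := f0_le
  have h3 := gaussianPDFReal_pos 0 1 1 one_ne_zero
  unfold c0
  nlinarith [p1_pos, p1_le]

section
variable {n : ℕ} (κ : Measure (Fin (n + 1) → ℝ)) [IsProbabilityMeasure κ]
  (σ : Fin (n + 1) → ℝ) (hσ : ∀ i, 0 < σ i)
  (hκ : ∀ i, κ.map (fun b => b i) = N1.map (fun z => σ i * z))

/-- the survival function -/
noncomputable def SS (a : Fin (n + 1) → ℝ) (t : ℝ) : ℝ≥0∞ :=
  (κ.prod N1) {p | ∀ i, (|p.2| / |t|) * a i ≤ p.1 i}

noncomputable def yy (a : Fin (n + 1) → ℝ) (t : ℝ) : ℝ :=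
  (κ.prod N1).real {p | ∃ i, p.1 i < (|p.2| / |t|) * a i}

theorem measurableSet_yy (a : Fin (n + 1) → ℝ) (t : ℝ) :
    MeasurableSet {p : (Fin (n + 1) → ℝ) × ℝ | ∃ i, p.1 i < (|p.2| / |t|) * a i} := by
  have : {p : (Fin (n + 1) → ℝ) × ℝ | ∃ i, p.1 i < (|p.2| / |t|) * a i} =
    ⋃ i, {p | p.1 i < (|p.2| / |t|) * a i} := by ext; simp
  rw [this]
  exact MeasurableSet.iUnion fun i => measurableSet_lt (by fun_prop) (by fun_prop)

theorem SS_eq (a : Fin (n + 1) → ℝ) (t : ℝ) : SS κ a t = ENNReal.ofReal (1 - yy κ a t) := by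
  have h1 : {p : (Fin (n + 1) → ℝ) × ℝ | ∀ i, (|p.2| / |t|) * a i ≤ p.1 i} =
      {p : (Fin (n + 1) → ℝ) × ℝ | ∃ i, p.1 i < (|p.2| / |t|) * a i}ᶜ := by
    ext p; simp
  unfold SS yy
  rw [h1, ← probReal_compl_eq_one_sub (measurableSet_yy a t), ofReal_measureReal]

theorem measurable_SS : Measurable fun p : (Fin (n + 1) → ℝ) × ℝ => SS κ p.1 p.2 := by
  unfold SS
  refine measurable_measure_prodMk_left (ν := κ.prod N1)
    (s := {q : ((Fin (n + 1) → ℝ) × ℝ) × ((Fin (n + 1) → ℝ) × ℝ) |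
      ∀ i, (|q.2.2| / |q.1.2|) * q.1.1 i ≤ q.2.1 i}) ?_
  have : {q : ((Fin (n + 1) → ℝ) × ℝ) × ((Fin (n + 1) → ℝ) × ℝ) |
      ∀ i, (|q.2.2| / |q.1.2|) * q.1.1 i ≤ q.2.1 i} = ⋂ i,
      {q | (|q.2.2| / |q.1.2|) * q.1.1 i ≤ q.2.1 i} := by ext; simp
  rw [this]
  exact MeasurableSet.iInter fun i => measurableSet_le (by fun_prop) (by fun_prop)

theorem yy_nonneg (a : Fin (n + 1) → ℝ) (t : ℝ) : 0 ≤ yy κ a t := measureReal_nonneg

theorem yy_le_one (a : Fin (n + 1) → ℝ) (t : ℝ) : yy κ a t ≤ 1 := measureReal_le_one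

theorem measurable_yy (a : Fin (n + 1) → ℝ) : Measurable (yy κ a) := by
  have h1 : yy κ a = fun t => 1 - (SS κ a t).toReal := by
    ext t
    rw [SS_eq, ENNReal.toReal_ofReal (by linarith [yy_le_one κ a t])]
    ring
  rw [h1]
  have h2 : Measurable fun t : ℝ => SS κ a t :=
    (measurable_SS κ).comp (measurable_const.prodMk measurable_id)
  exact measurable_const.sub h2.ennreal_toReal

noncomputable def qq (a : Fin (n + 1) → ℝ) : ℝ := c0 * (σ 0 / (|a 0| + σ 0))

include hσ in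
theorem qq_pos (a : Fin (n + 1) → ℝ) : 0 < qq σ a := by
  unfold qq
  have := hσ 0
  have := c0_pos
  positivity

include hσ in
theorem qq_le (a : Fin (n + 1) → ℝ) : qq σ a ≤ 1 := by
  unfold qq
  have := hσ 0
  have h1 := c0_pos
  have h2 := c0_le
  have h3 : σ 0 / (|a 0| + σ 0) ≤ 1 := by
    rw [div_le_one (by positivity)]
    linarith [abs_nonneg (a 0)]
  have h4 : 0 ≤ σ 0 / (|a 0| + σ 0) := by positivity
  nlinarith

include hκ in
theorem kap_real (i : Fin (n + 1)) (s : Set ℝ) (hs : MeasurableSet s) :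
    κ.real {b | b i ∈ s} = N1.real {z | σ i * z ∈ s} := by
  have h1 : κ.map (fun b => b i) s = κ {b | b i ∈ s} := Measure.map_apply (measurable_pi_apply i) hs
  have h2 : N1.map (fun z => σ i * z) s = N1 {z | σ i * z ∈ s} :=
    Measure.map_apply (by fun_prop) hs
  rw [measureReal_def, measureReal_def, ← h1, ← h2, hκ]

include hσ hκ in
theorem yy_lower (a : Fin (n + 1) → ℝ) (t : ℝ) : qq σ a * min |t| 1 ≤ yy κ a t := by
  have hσ0 := hσ 0
  have ha := abs_nonneg (a 0)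
  set m := min |t| 1 * (σ 0 / (|a 0| + σ 0)) with hm
  have hr1 : σ 0 / (|a 0| + σ 0) ≤ 1 := by
    rw [div_le_one (by positivity)]
    linarith
  have hr0 : 0 ≤ σ 0 / (|a 0| + σ 0) := by positivity
  have hmin0 : 0 ≤ min |t| 1 := le_min (abs_nonneg t) zero_le_one
  have hmin1 : min |t| 1 ≤ 1 := min_le_right _ _
  have hm0 : 0 ≤ m := mul_nonneg hmin0 hr0
  have hm1 : m ≤ 1 := by
    calc m ≤ 1 * 1 := mul_le_mul hmin1 hr1 hr0 zero_le_one
      _ = 1 := one_mul 1
  have h1 : {b : Fin (n + 1) → ℝ | b 0 ∈ Iio (-σ 0)} ×ˢ (Ioo (-m) m) ⊆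
      {p : (Fin (n + 1) → ℝ) × ℝ | ∃ i, p.1 i < (|p.2| / |t|) * a i} := by
    rintro ⟨b, s⟩ ⟨hb, hs⟩
    have hb' : b 0 < -σ 0 := hb
    have hs' : |s| < m := abs_lt.2 hs
    refine ⟨0, ?_⟩
    show b 0 < (|s| / |t|) * a 0
    have h2 : |s| / |t| * |a 0| ≤ σ 0 := by
      by_cases ht : |t| = 0
      · rw [ht, div_zero, zero_mul]; exact hσ0.le
      have ht' : 0 < |t| := lt_of_le_of_ne (abs_nonneg t) (Ne.symm ht)
      rw [div_mul_eq_mul_div, div_le_iff₀ ht']
      have h3 : |s| ≤ |t| * (σ 0 / (|a 0| + σ 0)) :=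
        hs'.le.trans (mul_le_mul_of_nonneg_right (min_le_left _ _) hr0)
      calc |s| * |a 0| ≤ |t| * (σ 0 / (|a 0| + σ 0)) * |a 0| := by gcongr
        _ = |t| * σ 0 * (|a 0| / (|a 0| + σ 0)) := by ring
        _ ≤ |t| * σ 0 * 1 := by
          gcongr
          rw [div_le_one (by positivity)]
          linarith
        _ = σ 0 * |t| := by ring
    have h3 : -(|s| / |t| * |a 0|) ≤ |s| / |t| * a 0 := by
      have h4 : 0 ≤ |s| / |t| := by positivity
      nlinarith [neg_abs_le (a 0)]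
    linarith
  have h2 : (κ.prod N1).real ({b : Fin (n + 1) → ℝ | b 0 ∈ Iio (-σ 0)} ×ˢ (Ioo (-m) m)) ≤ yy κ a t :=
    measureReal_mono h1
  refine le_trans ?_ h2
  have h3 : (κ.prod N1).real ({b : Fin (n + 1) → ℝ | b 0 ∈ Iio (-σ 0)} ×ˢ (Ioo (-m) m)) =
      p1 * psi m := by
    rw [measureReal_prod_prod, kap_real κ σ hκ 0 _ measurableSet_Iio]
    have : {z : ℝ | σ 0 * z ∈ Iio (-σ 0)} = Iio (-1) := by
      ext z
      show σ 0 * z < -σ 0 ↔ z < -1
      constructor
      · intro h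
        by_contra hc
        rw [not_lt] at hc
        nlinarith
      · intro h
        nlinarith
    rw [this]
    rfl
  rw [h3]
  have h4 : 2 * gaussianPDFReal 0 1 1 * m ≤ psi m := by
    refine le_trans ?_ (le_psi hm0)
    have := pdf_anti (s := m) (x := 1) (by rw [abs_of_nonneg hm0, abs_one]; exact hm1)
    gcongr
  calc qq σ a * min |t| 1 = p1 * (2 * gaussianPDFReal 0 1 1 * m) := by
        unfold qq c0
        rw [hm]
        ring
    _ ≤ p1 * psi m := mul_le_mul_of_nonneg_left h4 p1_pos.le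

end

end Pool.Agent.K6.H35.SA
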