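import Mathlib
import Pool.Agent.K6.H35.SA.Kap

set_option autoImplicit false

namespace Pool.Agent.K6.H35.SA

open MeasureTheory ProbabilityTheory Filter Topology Set
open scoped ENNReal

section
variable {n : ℕ} (κ : Measure (Fin (n + 1) → ℝ)) [IsProbabilityMeasure κ]
  (σ : Fin (n + 1) → ℝ) (hσ : ∀ i, 0 < σ i)
  (hκ : ∀ i, κ.map (fun b => b i) = N1.map (fun z => σ i * z))

/-- the integral over `t` -/
noncomputable def TT (d : ℕ) (a : Fin (n + 1) → ℝ) : ℝ≥0∞ := d * ∫⁻ t, SS κ a t ^ d ∂N1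

theorem measurable_TT (d : ℕ) : Measurable (TT κ d) := by
  unfold TT
  refine Measurable.const_mul ?_ _
  exact Measurable.lintegral_prod_right' ((measurable_SS κ).pow_const d)

theorem TT_eq (d : ℕ) (a : Fin (n + 1) → ℝ) :
    TT κ d a = ENNReal.ofReal (d * ∫ t, (1 - yy κ a t) ^ d ∂N1) := by
  unfold TT
  have hm := measurable_yy κ a
  rw [ENNReal.ofReal_mul (Nat.cast_nonneg d), ENNReal.ofReal_natCast,
    ofReal_integral_eq_lintegral_ofReal]
  · congr 1
    refine lintegral_congr fun t => ?_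
    rw [SS_eq, ENNReal.ofReal_pow (by linarith [yy_le_one κ a t])]
  · refine Integrable.of_bound (Measurable.aestronglyMeasurable (by fun_prop)) 1
      (Eventually.of_forall fun t => ?_)
    rw [Real.norm_of_nonneg (pow_nonneg (by linarith [yy_le_one κ a t]) _)]
    exact pow_le_one₀ (by linarith [yy_le_one κ a t]) (by linarith [yy_nonneg κ a t])
  · exact Eventually.of_forall fun t => pow_nonneg (by linarith [yy_le_one κ a t]) _

include hσ hκ in
theorem TT_le (d : ℕ) (a : Fin (n + 1) → ℝ) : TT κ d a ≤ ENNReal.ofReal (2 / qq σ a) := by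
  rw [TT_eq]
  exact ENNReal.ofReal_le_ofReal (lap_bound _ (measurable_yy κ a) (yy_nonneg κ a) (yy_le_one κ a)
    (qq_pos σ hσ a) (qq_le σ hσ a) (yy_lower κ σ hσ hκ a) d)

/-- the universal bound -/
noncomputable def CC : ℝ≥0∞ := ∫⁻ z, ENNReal.ofReal (2 / c0 * (|z| + 1)) ∂N1

theorem integrable_abs : Integrable (fun z => |z|) N1 := by
  have h := (memLp_id_gaussianReal (μ := 0) (v := 1) 1)
  have h2 := memLp_one_iff_integrable.1 h
  exact h2.abs

theorem CC_lt_top : CC < ⊤ := by
  unfold CC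
  have h : Integrable (fun z => 2 / c0 * (|z| + 1)) N1 :=
    (integrable_abs.add (integrable_const 1)).const_mul _
  exact h.lintegral_lt_top

include hσ hκ in
theorem int_bound : ∫⁻ a, ENNReal.ofReal (2 / qq σ a) ∂κ = CC := by
  have hσ0 := hσ 0
  have hc := c0_pos
  have h1 : ∀ a : Fin (n + 1) → ℝ, ENNReal.ofReal (2 / qq σ a) =
      (fun x : ℝ => ENNReal.ofReal (2 / c0 * (|x| / σ 0 + 1))) (a 0) := by
    intro a
    unfold qq
    congr 1
    have : |a 0| + σ 0 ≠ 0 := by positivity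
    field_simp
  simp_rw [h1]
  have hm : Measurable fun x : ℝ => ENNReal.ofReal (2 / c0 * (|x| / σ 0 + 1)) := by fun_prop
  rw [← lintegral_map hm (measurable_pi_apply 0), hκ 0, lintegral_map hm (by fun_prop)]
  unfold CC
  refine lintegral_congr fun z => ?_
  rw [abs_mul, abs_of_pos hσ0, mul_div_assoc, mul_div_cancel₀]
  exact hσ0.ne'

/-- the slope -/
noncomputable def MX (a b : Fin (n + 1) → ℝ) : ℝ :=
  Finset.univ.sup' Finset.univ_nonempty fun i => b i / a i

theorem lt_MX {a b : Fin (n + 1) → ℝ} (ha : ∀ i, a i < 0) (s t : ℝ) (ht : t ≠ 0) :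
    (∃ i, b i < (|s| / |t|) * a i) ↔ |s| < |t| * MX a b := by
  have ht' : 0 < |t| := abs_pos.2 ht
  rw [mul_comm, ← div_lt_iff₀ ht']
  unfold MX
  rw [Finset.lt_sup'_iff]
  simp only [Finset.mem_univ, true_and]
  refine exists_congr fun i => ?_
  rw [lt_div_iff_of_neg (ha i)]

theorem measurable_MX (a : Fin (n + 1) → ℝ) : Measurable (MX a) := by
  have h : MX a = Finset.univ.sup' Finset.univ_nonempty
      (fun (i : Fin (n + 1)) (b : Fin (n + 1) → ℝ) => b i / a i) := by
    ext b
    unfold MX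
    rw [Finset.sup'_apply]
  rw [h]
  exact Finset.measurable_sup' _ fun i _ => (measurable_pi_apply i).div_const _

theorem MX_le (a b : Fin (n + 1) → ℝ) : MX a b ≤ ∑ i, |b i| / |a i| := by
  unfold MX
  refine Finset.sup'_le _ _ fun i _ => ?_
  calc b i / a i ≤ |b i / a i| := le_abs_self _
    _ = |b i| / |a i| := abs_div _ _
    _ ≤ ∑ i, |b i| / |a i| :=
      Finset.single_le_sum (f := fun i => |b i| / |a i|) (fun i _ => by positivity) (Finset.mem_univ i)

theorem yy_eq {a : Fin (n + 1) → ℝ} (ha : ∀ i, a i < 0) {t : ℝ} (ht : t ≠ 0) :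
    yy κ a t = ∫ b, psi (|t| * MX a b) ∂κ := by
  have hm := measurable_MX a
  unfold yy
  rw [measureReal_def, Measure.prod_apply (measurableSet_yy a t)]
  have h1 : ∀ b : Fin (n + 1) → ℝ, N1 (Prod.mk b ⁻¹'
      {p : (Fin (n + 1) → ℝ) × ℝ | ∃ i, p.1 i < (|p.2| / |t|) * a i}) =
      ENNReal.ofReal (psi (|t| * MX a b)) := by
    intro b
    have h2 : Prod.mk b ⁻¹' {p : (Fin (n + 1) → ℝ) × ℝ | ∃ i, p.1 i < (|p.2| / |t|) * a i} =
        Ioo (-(|t| * MX a b)) (|t| * MX a b) := by
      ext s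
      show (∃ i, b i < (|s| / |t|) * a i) ↔ _
      rw [lt_MX ha s t ht, mem_Ioo, abs_lt]
    rw [h2]
    unfold psi
    rw [ofReal_measureReal]
  simp_rw [h1]
  rw [integral_eq_lintegral_of_nonneg_ae (Eventually.of_forall fun b => psi_nonneg _)]
  have hp : Measurable psi := psi_mono.measurable
  exact (hp.comp (hm.const_mul _)).aestronglyMeasurable

include hσ hκ in
theorem integrable_coord (i : Fin (n + 1)) : Integrable (fun b : Fin (n + 1) → ℝ => |b i|) κ := by
  have h1 : Integrable (fun x : ℝ => |x|) (κ.map fun b => b i) := by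
    rw [hκ i, integrable_map_measure (by fun_prop) (by fun_prop)]
    have : (fun x : ℝ => |x|) ∘ (fun z => σ i * z) = fun z => σ i * |z| := by
      ext z
      simp [abs_mul, abs_of_pos (hσ i)]
    rw [this]
    exact integrable_abs.const_mul _
  exact (integrable_map_measure (μ := κ) (f := fun b : Fin (n + 1) → ℝ => b i)
    (g := fun x : ℝ => |x|) (by fun_prop) (measurable_pi_apply i).aemeasurable).1 h1

/-- the slope of `y` at `0` -/
noncomputable def slope (a : Fin (n + 1) → ℝ) : ℝ := ∫ b, 2 * f0 * max (MX a b) 0 ∂κ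

include hσ hκ in
theorem yy_slope {a : Fin (n + 1) → ℝ} (ha : ∀ i, a i < 0) :
    Tendsto (fun t => yy κ a t / |t|) (𝓝[≠] 0) (𝓝 (slope κ a)) := by
  have hm := measurable_MX a
  have hp : Measurable psi := psi_mono.measurable
  have h1 : ∀ᶠ t in 𝓝[≠] (0 : ℝ), ∫ b, psi (|t| * MX a b) / |t| ∂κ = yy κ a t / |t| := by
    filter_upwards [self_mem_nhdsWithin] with t ht
    rw [yy_eq κ ha ht, integral_div]
  refine Tendsto.congr' h1 ?_
  unfold slope
  have hf := f0_pos
  refine tendsto_integral_filter_of_dominated_convergence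
    (fun b => 2 * f0 * ∑ i, |b i| / |a i|) ?_ ?_ ?_ ?_
  · exact Eventually.of_forall fun t =>
      ((hp.comp (hm.const_mul _)).div_const _).aestronglyMeasurable
  · filter_upwards [self_mem_nhdsWithin] with t ht
    have ht' : 0 < |t| := abs_pos.2 ht
    refine Eventually.of_forall fun b => ?_
    rw [Real.norm_of_nonneg (div_nonneg (psi_nonneg _) ht'.le), div_le_iff₀ ht']
    have hsum : 0 ≤ ∑ i, |b i| / |a i| := Finset.sum_nonneg fun i _ => by positivity
    by_cases hM : 0 ≤ MX a b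
    · refine (psi_le (mul_nonneg ht'.le hM)).trans ?_
      have := MX_le a b
      calc 2 * f0 * (|t| * MX a b) = 2 * f0 * MX a b * |t| := by ring
        _ ≤ 2 * f0 * (∑ i, |b i| / |a i|) * |t| := by gcongr
    · rw [psi_nonpos (by nlinarith)]
      positivity
  · refine Integrable.const_mul ?_ _
    refine integrable_finsetSum _ fun i _ => ?_
    exact (integrable_coord κ σ hσ hκ i).div_const _
  · refine Eventually.of_forall fun b => ?_
    by_cases hM : 0 < MX a b
    · rw [max_eq_left hM.le]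
      have h3 : Tendsto (fun t : ℝ => |t| * MX a b) (𝓝[≠] 0) (𝓝[>] 0) := by
        refine tendsto_nhdsWithin_iff.2 ⟨?_, ?_⟩
        · have : Tendsto (fun t : ℝ => |t| * MX a b) (𝓝 0) (𝓝 (|0| * MX a b)) :=
            (continuous_abs.mul continuous_const).tendsto 0
          simp only [abs_zero, zero_mul] at this
          exact this.mono_left nhdsWithin_le_nhds
        · filter_upwards [self_mem_nhdsWithin] with t ht
          exact mul_pos (abs_pos.2 ht) hM
      have h4 := (psi_lim.comp h3).mul_const (MX a b)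
      refine h4.congr' ?_
      filter_upwards [self_mem_nhdsWithin] with t ht
      have ht' : |t| ≠ 0 := abs_ne_zero.2 ht
      simp only [Function.comp]
      field_simp
    · rw [not_lt] at hM
      rw [max_eq_right hM, mul_zero]
      refine tendsto_const_nhds.congr' ?_
      filter_upwards [self_mem_nhdsWithin] with t ht
      have ht' : 0 < |t| := abs_pos.2 ht
      rw [psi_nonpos (by nlinarith), zero_div]

include hσ hκ in
theorem slope_ge {a : Fin (n + 1) → ℝ} (ha : ∀ i, a i < 0) : qq σ a ≤ slope κ a := by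
  refine ge_of_tendsto (yy_slope κ σ hσ hκ ha) ?_
  have h1 : ∀ᶠ t in 𝓝[≠] (0 : ℝ), |t| ≤ 1 := by
    have : ∀ᶠ t in 𝓝 (0 : ℝ), t ∈ Icc (-1 : ℝ) 1 := Icc_mem_nhds (by norm_num) (by norm_num)
    filter_upwards [this.filter_mono nhdsWithin_le_nhds] with t ht
    exact abs_le.2 ht
  filter_upwards [self_mem_nhdsWithin, h1] with t ht ht1
  have ht' : 0 < |t| := abs_pos.2 ht
  rw [le_div_iff₀ ht']
  have := yy_lower κ σ hσ hκ a t
  rwa [min_eq_left ht1] at this

/-- the limit of `TT` -/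
noncomputable def TI (a : Fin (n + 1) → ℝ) : ℝ≥0∞ :=
  ENNReal.ofReal (∫ t, f0 * Real.exp (-(slope κ a * |t|)))

include hσ hκ in
theorem TT_tendsto_neg {a : Fin (n + 1) → ℝ} (ha : ∀ i, a i < 0) :
    Tendsto (fun d => TT κ d a) atTop (𝓝 (TI κ a)) := by
  simp_rw [TT_eq]
  exact ENNReal.tendsto_ofReal (lap_tendsto _ (measurable_yy κ a) (yy_nonneg κ a) (yy_le_one κ a)
    (qq_pos σ hσ a) (qq_le σ hσ a) (yy_lower κ σ hσ hκ a) (yy_slope κ σ hσ hκ ha))

include hσ hκ in
theorem TI_pos {a : Fin (n + 1) → ℝ} (ha : ∀ i, a i < 0) : 0 < TI κ a := by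
  have hs : 0 < slope κ a := (qq_pos σ hσ a).trans_le (slope_ge κ σ hσ hκ ha)
  unfold TI
  rw [integral_const_mul, integral_exp_abs hs, ENNReal.ofReal_pos]
  have := f0_pos
  positivity

include hσ hκ in
theorem TT_tendsto_pos {a : Fin (n + 1) → ℝ} {i : Fin (n + 1)} (ha : 0 < a i) :
    Tendsto (fun d => TT κ d a) atTop (𝓝 0) := by
  set η : ℝ := N1.real (Iio 0) with hη
  have hη0 : 0 < η := N1_pos isOpen_Iio ⟨-1, by norm_num⟩
  have hη1 : η ≤ 1 := measureReal_le_one
  have h1 : ∀ t, η ≤ yy κ a t := by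
    intro t
    have h2 : {b : Fin (n + 1) → ℝ | b i ∈ Iio 0} ×ˢ (univ : Set ℝ) ⊆
        {p : (Fin (n + 1) → ℝ) × ℝ | ∃ i, p.1 i < (|p.2| / |t|) * a i} := by
      rintro ⟨b, s⟩ ⟨hb, -⟩
      refine ⟨i, ?_⟩
      have hb' : b i < 0 := hb
      have : 0 ≤ |s| / |t| * a i := by positivity
      exact lt_of_lt_of_le hb' this
    have h3 := measureReal_mono (μ := κ.prod N1) h2
    rw [measureReal_prod_prod, kap_real κ σ hκ i _ measurableSet_Iio, probReal_univ, mul_one] at h3
    have h4 : {z : ℝ | σ i * z ∈ Iio 0} = Iio 0 := by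
      ext z
      show σ i * z < 0 ↔ z < 0
      have := hσ i
      constructor
      · intro h
        by_contra hc
        rw [not_lt] at hc
        nlinarith [mul_nonneg this.le hc]
      · intro h
        nlinarith
    rw [h4] at h3
    exact h3
  have h5 : ∀ d : ℕ, TT κ d a ≤ ENNReal.ofReal (d * (1 - η) ^ d) := by
    intro d
    rw [TT_eq]
    refine ENNReal.ofReal_le_ofReal (mul_le_mul_of_nonneg_left ?_ (Nat.cast_nonneg d))
    have h6 : ∫ t, (1 - yy κ a t) ^ d ∂N1 ≤ ∫ t, (1 - η) ^ d ∂N1 := by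
      refine integral_mono_of_nonneg (Eventually.of_forall fun t =>
        pow_nonneg (by linarith [yy_le_one κ a t]) _) (integrable_const _)
        (Eventually.of_forall fun t => ?_)
      exact pow_le_pow_left₀ (by linarith [yy_le_one κ a t]) (by linarith [h1 t]) d
    simpa using h6
  have h7 : Tendsto (fun d : ℕ => ENNReal.ofReal (d * (1 - η) ^ d)) atTop (𝓝 0) := by
    rw [← ENNReal.ofReal_zero]
    exact ENNReal.tendsto_ofReal (tendsto_self_mul_const_pow_of_lt_one (by linarith) (by linarith))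
  exact tendsto_of_tendsto_of_tendsto_of_le_of_le tendsto_const_nhds h7 (fun d => bot_le) h5

include hσ hκ in
theorem ae_ne : ∀ᵐ a ∂κ, ∀ i, a i ≠ 0 := by
  rw [ae_all_iff]
  intro i
  rw [ae_iff]
  have h1 : κ.map (fun b => b i) {0} = κ {b | b i ∈ ({0} : Set ℝ)} :=
    Measure.map_apply (measurable_pi_apply i) (measurableSet_singleton 0)
  have h2 : {a : Fin (n + 1) → ℝ | ¬a i ≠ 0} = {b | b i ∈ ({0} : Set ℝ)} := by ext; simp
  rw [h2, ← h1, hκ, Measure.map_apply (by fun_prop) (measurableSet_singleton 0)]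
  have h3 : (fun z => σ i * z) ⁻¹' {0} = {0} := by
    ext z
    simp [(hσ i).ne']
  rw [h3]
  exact (gaussianReal_absolutelyContinuous 0 one_ne_zero) (measure_singleton 0)

include hσ hκ in
/-- the integral over `a` converges -/
theorem int_TT : ∃ c : ℝ≥0∞, Tendsto (fun d => ∫⁻ a, TT κ d a ∂κ) atTop (𝓝 c) ∧
    (κ {a | ∀ i, a i < 0} ≠ 0 → 0 < c) := by
  classical
  have hlim : ∀ᵐ a ∂κ, Tendsto (fun d => TT κ d a) atTop
      (𝓝 (if ∀ i, a i < 0 then TI κ a else 0)) := by
    filter_upwards [ae_ne κ σ hσ hκ] with a ha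
    by_cases h : ∀ i, a i < 0
    · rw [if_pos h]
      exact TT_tendsto_neg κ σ hσ hκ h
    · rw [if_neg h]
      rw [not_forall] at h
      obtain ⟨i, hi⟩ := h
      rw [not_lt] at hi
      exact TT_tendsto_pos κ σ hσ hκ (lt_of_le_of_ne hi (ha i).symm)
  refine ⟨∫⁻ a, (if ∀ i, a i < 0 then TI κ a else 0) ∂κ, ?_, ?_⟩
  · refine tendsto_lintegral_of_dominated_convergence (fun a => ENNReal.ofReal (2 / qq σ a))
      (fun d => measurable_TT κ d) (fun d => Eventually.of_forall fun a => TT_le κ σ hσ hκ d a) ?_ hlim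
    rw [int_bound κ σ hσ hκ]
    exact CC_lt_top.ne
  · intro h
    have hmeas : AEMeasurable (fun a => if ∀ i, a i < 0 then TI κ a else 0) κ :=
      aemeasurable_of_tendsto_metrizable_ae atTop (fun d => (measurable_TT κ d).aemeasurable) hlim
    rw [pos_iff_ne_zero]
    intro h0
    rw [lintegral_eq_zero_iff' hmeas] at h0
    apply h
    refine measure_mono_null ?_ h0
    intro a ha hc
    have ha' : ∀ i, a i < 0 := ha
    have hc' : (if ∀ i, a i < 0 then TI κ a else 0) = 0 := hc
    rw [if_pos ha'] at hc'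
    exact (TI_pos κ σ hσ hκ ha').ne' hc'

include hσ hκ in
theorem int_TT_le (d : ℕ) : ∫⁻ a, TT κ d a ∂κ ≤ CC := by
  rw [← int_bound κ σ hσ hκ]
  exact lintegral_mono fun a => TT_le κ σ hσ hκ d a

end

end Pool.Agent.K6.H35.SA
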