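import Mathlib
import Pool.Agent.K6.H35.SA.Kap2
import Pool.Agent.K6.H35.SA.Cone

set_option autoImplicit false

namespace Pool.Agent.K6.H35.SA

open MeasureTheory ProbabilityTheory Filter Topology Set
open scoped ENNReal InnerProductSpace

/-- the symmetry in the last coordinate -/
theorem half_eq {n : ℕ} (κ : Measure (Fin (n + 1) → ℝ)) [IsProbabilityMeasure κ]
    (a : Fin (n + 1) → ℝ) {t : ℝ} (ht : t ≠ 0) :
    2 * (κ.prod N1) {p | 0 ≤ p.2 / t ∧ ∀ i, (p.2 / t) * a i ≤ p.1 i} = SS κ a t := by
  set P : Set ((Fin (n + 1) → ℝ) × ℝ) := {p | 0 ≤ p.2 / t ∧ ∀ i, (p.2 / t) * a i ≤ p.1 i} with hP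
  set P' : Set ((Fin (n + 1) → ℝ) × ℝ) := {p | 0 ≤ (-p.2) / t ∧ ∀ i, ((-p.2) / t) * a i ≤ p.1 i}
    with hP'
  have hPm : MeasurableSet P := by
    have : P = {p | 0 ≤ p.2 / t} ∩ ⋂ i, {p | (p.2 / t) * a i ≤ p.1 i} := by ext; simp [hP]
    rw [this]
    exact (measurableSet_le measurable_const (by fun_prop)).inter
      (MeasurableSet.iInter fun i => measurableSet_le (by fun_prop) (by fun_prop))
  have hneg : MeasurePreserving (fun s : ℝ => -s) N1 N1 := by
    refine ⟨by fun_prop, ?_⟩
    have := gaussianReal_map_neg (μ := 0) (v := 1)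
    simpa using this
  have hsym : MeasurePreserving (fun p : (Fin (n + 1) → ℝ) × ℝ => (p.1, -p.2)) (κ.prod N1)
      (κ.prod N1) := (MeasurePreserving.id κ).prod hneg
  have h1 : (κ.prod N1) P' = (κ.prod N1) P := by
    rw [← hsym.measure_preimage hPm.nullMeasurableSet]
    rfl
  have hP'm : MeasurableSet P' := hsym.measurable hPm
  have h2 : P ∪ P' = {p | ∀ i, (|p.2| / |t|) * a i ≤ p.1 i} := by
    ext p
    have e : |p.2| / |t| = |p.2 / t| := (abs_div _ _).symm
    constructor
    · rintro (⟨h, h'⟩ | ⟨h, h'⟩)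
      · intro i
        rw [e, abs_of_nonneg h]
        exact h' i
      · intro i
        rw [e, ← abs_neg, ← neg_div, abs_of_nonneg h]
        exact h' i
    · intro h
      rcases le_total 0 (p.2 / t) with h0 | h0
      · left
        refine ⟨h0, fun i => ?_⟩
        have := h i
        rwa [e, abs_of_nonneg h0] at this
      · right
        have h0' : 0 ≤ (-p.2) / t := by rw [neg_div]; linarith
        refine ⟨h0', fun i => ?_⟩
        have := h i
        rwa [e, ← abs_neg, ← neg_div, abs_of_nonneg h0'] at this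
  have h3 : (κ.prod N1) (P ∩ P') = 0 := by
    have h4 : P ∩ P' ⊆ (univ : Set (Fin (n + 1) → ℝ)) ×ˢ ({0} : Set ℝ) := by
      rintro p ⟨⟨h, -⟩, ⟨h', -⟩⟩
      refine ⟨mem_univ _, ?_⟩
      rw [neg_div] at h'
      have h5 : p.2 / t = 0 := le_antisymm (by linarith) h
      rcases div_eq_zero_iff.1 h5 with h6 | h6
      · exact h6
      · exact absurd h6 ht
    refine measure_mono_null h4 ?_
    rw [Measure.prod_prod]
    have : N1 {0} = 0 := (gaussianReal_absolutelyContinuous 0 one_ne_zero) (measure_singleton 0)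
    rw [this, mul_zero]
  unfold SS
  rw [← h2, ← add_zero ((κ.prod N1) (P ∪ P')), ← h3, measure_union_add_inter _ hP'm, h1, two_mul]

/-- the Gaussian vector in coordinates adapted to `w` -/
theorem geo {n : ℕ} (w : Fin (n + 1) → E (n + 2)) (hw : LinearIndependent ℝ w) :
    ∃ (κ : Measure (Fin (n + 1) → ℝ)) (_ : IsProbabilityMeasure κ) (σ : Fin (n + 1) → ℝ),
      (∀ i, 0 < σ i) ∧ (∀ i, κ.map (fun b => b i) = N1.map (fun z => σ i * z)) ∧
      κ {a | ∀ i, a i < 0} ≠ 0 ∧
      ∀ d : ℕ, ∫⁻ x, (2 * gC (Fin.cons x w : Fin (n + 2) → E (n + 2))) ^ d ∂(stdGaussian (E (n + 2)))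
        = ∫⁻ a, ∫⁻ t, SS κ a t ^ d ∂N1 ∂κ := by
  classical
  set γ := stdGaussian (E (n + 2)) with hγ
  -- the normal vector
  obtain ⟨v, hv1, hvw⟩ : ∃ v : E (n + 2), ‖v‖ = 1 ∧ ∀ i, ⟪v, w i⟫_ℝ = 0 := by
    have h1 : Submodule.span ℝ (range w) ≠ ⊤ := by
      intro h
      have h2 : Module.finrank ℝ (Submodule.span ℝ (range w)) = n + 1 := by
        rw [finrank_span_eq_card hw]; simp
      rw [h, finrank_top] at h2
      simp at h2
    have h3 : (Submodule.span ℝ (range w))ᗮ ≠ ⊥ := by
      intro h
      exact h1 ((Submodule.orthogonal_eq_bot_iff).1 h)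
    obtain ⟨u, hu, hu0⟩ := Submodule.exists_mem_ne_zero_of_ne_bot h3
    refine ⟨‖u‖⁻¹ • u, by rw [norm_smul, norm_inv, norm_norm, inv_mul_cancel₀ (norm_ne_zero_iff.2 hu0)],
      fun i => ?_⟩
    rw [real_inner_smul_left, (Submodule.mem_orthogonal' _ _).1 hu (w i)
      (Submodule.subset_span ⟨i, rfl⟩), mul_zero]
  have hvv : ⟪v, v⟫_ℝ = 1 := by rw [real_inner_self_eq_norm_sq, hv1]; norm_num
  have hli : LinearIndependent ℝ (Fin.cons v w : Fin (n + 2) → E (n + 2)) := by
    refine linearIndependent_finCons.2 ⟨hw, fun hmem => ?_⟩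
    have h1 : ∀ z ∈ Submodule.span ℝ (range w), ⟪v, z⟫_ℝ = 0 := by
      intro z hz
      induction hz using Submodule.span_induction with
      | mem x hx => obtain ⟨i, rfl⟩ := hx; exact hvw i
      | zero => simp
      | add x y _ _ hx hy => rw [inner_add_right, hx, hy, add_zero]
      | smul c x _ hx => rw [inner_smul_right, hx, mul_zero]
    have := h1 v hmem
    rw [hvv] at this
    exact one_ne_zero this
  let b : Module.Basis (Fin (n + 2)) ℝ (E (n + 2)) :=
    basisOfLinearIndependentOfCardEqFinrank hli (by simp)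
  have hb : ∀ j, b j = (Fin.cons v w : Fin (n + 2) → E (n + 2)) j := fun j => by
    simp [b]
  have hb0 : b 0 = v := by rw [hb]; rfl
  have hbs : ∀ i : Fin (n + 1), b i.succ = w i := fun i => by rw [hb]; rfl
  have hexp : ∀ x, x = b.coord 0 x • v + ∑ i : Fin (n + 1), b.coord i.succ x • w i := by
    intro x
    conv_lhs => rw [← b.sum_repr x]
    rw [Fin.sum_univ_succ, hb0]
    simp only [hbs]
    rfl
  have ht : ∀ x, b.coord 0 x = ⟪v, x⟫_ℝ := by
    intro x
    conv_rhs => rw [hexp x]
    rw [inner_add_right, inner_smul_right, hvv, inner_sum, mul_one]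
    simp only [inner_smul_right, hvw, mul_zero, Finset.sum_const_zero, add_zero]
  -- the coordinate functionals
  let L : Fin (n + 1) → StrongDual ℝ (E (n + 2)) := fun i => (b.coord i.succ).toContinuousLinearMap
  have hL : ∀ i x, L i x = b.coord i.succ x := fun i x => rfl
  let A : E (n + 2) →L[ℝ] (Fin (n + 1) → ℝ) := ContinuousLinearMap.pi L
  have hA : ∀ x i, A x i = b.coord i.succ x := fun x i => rfl
  have hLv : ∀ i, L i v = 0 := by
    intro i
    rw [hL, ← hb0]
    simp
  have hLw : ∀ i, L i (w i) = 1 := by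
    intro i
    rw [hL, ← hbs]
    simp
  let tt : StrongDual ℝ (E (n + 2)) := innerSL ℝ v
  have htt : ∀ x, tt x = ⟪v, x⟫_ℝ := fun x => rfl
  have hlaw : ∀ l : StrongDual ℝ (E (n + 2)), γ.map l = N1.map (fun z => ‖l‖ * z) := by
    intro l
    rw [IsGaussian.map_eq_gaussianReal l, integral_strongDual_stdGaussian, variance_dual_stdGaussian,
      gaussianReal_map_const_mul]
    congr 1
    · simp
    · ext
      simp
  have hindep : IndepFun (fun x => A x) (fun x => tt x) γ := by
    have hg : HasGaussianLaw (fun x : E (n + 2) => ((fun i => L i x), fun _ : Fin 1 => tt x)) γ :=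
      IsGaussian.hasGaussianLaw_id.map_fun
        ((ContinuousLinearMap.pi L).prod (ContinuousLinearMap.pi fun _ : Fin 1 => tt))
    have h1 := hg.indepFun_of_covariance_eval (X := fun i x => L i x) (Y := fun _ x => tt x) ?_
    · exact h1.comp (φ := id) (ψ := fun f : Fin 1 → ℝ => f 0) measurable_id
        (measurable_pi_apply (0 : Fin 1))
    · intro i _
      have h2 := covarianceBilin_apply_eq_cov (μ := γ) (IsGaussian.memLp_two_id)
        ((InnerProductSpace.toDual ℝ (E (n + 2))).symm (L i)) v
      rw [covarianceBilin_stdGaussian, innerSL_apply_apply,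
        InnerProductSpace.toDual_symm_apply, hLv] at h2
      simp only [InnerProductSpace.toDual_symm_apply] at h2
      exact h2.symm
  have httlaw : γ.map tt = N1 := by
    rw [hlaw]
    have : ‖tt‖ = 1 := by rw [innerSL_apply_norm, hv1]
    rw [this]
    simp
  have hjoint : γ.map (fun x => (A x, tt x)) = (γ.map A).prod N1 := by
    rw [← httlaw]
    exact (indepFun_iff_map_prod_eq_prod_map_map (by fun_prop) (by fun_prop)).1 hindep
  have hprob : IsProbabilityMeasure (γ.map A) := Measure.isProbabilityMeasure_map (by fun_prop)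
  refine ⟨γ.map A, hprob, fun i => ‖L i‖, fun i => ?_, fun i => ?_, ?_, ?_⟩
  · rw [norm_pos_iff]
    intro h
    have := hLw i
    rw [h] at this
    simp at this
  · rw [Measure.map_map (measurable_pi_apply i) (by fun_prop)]
    exact hlaw (L i)
  · rw [Measure.map_apply (by fun_prop) (by
      have : {a : Fin (n + 1) → ℝ | ∀ i, a i < 0} = ⋂ i, {a | a i < 0} := by ext; simp
      rw [this]
      exact MeasurableSet.iInter fun i => measurableSet_lt (by fun_prop) (by fun_prop))]
    have hopen : IsOpen (A ⁻¹' {a : Fin (n + 1) → ℝ | ∀ i, a i < 0}) := by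
      refine IsOpen.preimage A.continuous ?_
      have : {a : Fin (n + 1) → ℝ | ∀ i, a i < 0} = ⋂ i, {a | a i < 0} := by ext; simp
      rw [this]
      exact isOpen_iInter_of_finite fun i => isOpen_lt (by fun_prop) (by fun_prop)
    have hne : (A ⁻¹' {a : Fin (n + 1) → ℝ | ∀ i, a i < 0}).Nonempty := by
      refine ⟨-∑ j, w j, fun i => ?_⟩
      rw [hA, map_neg, map_sum]
      have : ∀ j, b.coord i.succ (w j) = if j = i then 1 else 0 := by
        intro j
        rw [← hbs, Module.Basis.coord_apply, Module.Basis.repr_self, Finsupp.single_apply]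
        simp
      simp [this]
    intro h
    have hac : (volume : Measure (E (n + 2))) ≪ γ := by
      rw [hγ, stdGaussian_density]
      refine withDensity_absolutelyContinuous' ?_ ?_
      · exact ((measurable_gw.comp (by fun_prop)).const_mul _).aemeasurable
      · refine Eventually.of_forall fun x => mul_ne_zero (pow_ne_zero _ gc_pos) ?_
        unfold gw
        simp [Real.exp_pos]
    exact (hopen.measure_pos volume hne).ne' (hac h)
  · intro d
    have hkey : ∀ x, tt x ≠ 0 → 2 * gC (Fin.cons x w : Fin (n + 2) → E (n + 2)) =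
        SS (γ.map A) (A x) (tt x) := by
      intro x hx
      rw [← half_eq (γ.map A) (A x) hx, ← hjoint]
      congr 1
      have hPm : MeasurableSet {p : (Fin (n + 1) → ℝ) × ℝ | 0 ≤ p.2 / tt x ∧
          ∀ i, (p.2 / tt x) * A x i ≤ p.1 i} := by
        have : {p : (Fin (n + 1) → ℝ) × ℝ | 0 ≤ p.2 / tt x ∧ ∀ i, (p.2 / tt x) * A x i ≤ p.1 i} =
            {p | 0 ≤ p.2 / tt x} ∩ ⋂ i, {p | (p.2 / tt x) * A x i ≤ p.1 i} := by ext; simp
        rw [this]
        exact (measurableSet_le measurable_const (by fun_prop)).inter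
          (MeasurableSet.iInter fun i => measurableSet_le (by fun_prop) (by fun_prop))
      rw [Measure.map_apply (by fun_prop) hPm]
      unfold gC
      congr 1
      ext z
      constructor
      · rintro ⟨l, hl, hz⟩
        rw [Fin.sum_univ_succ] at hz
        simp only [Fin.cons_zero, Fin.cons_succ] at hz
        have h1 : tt z = l 0 * tt x := by
          rw [hz, map_add, map_smul, map_sum]
          simp only [htt, inner_smul_right, hvw, mul_zero, Finset.sum_const_zero, add_zero,
            smul_eq_mul]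
        have h2 : ∀ i, A z i = l 0 * A x i + l i.succ := by
          intro i
          rw [hA, hA, hz, map_add, map_smul, map_sum]
          have : ∀ j : Fin (n + 1), b.coord i.succ (l j.succ • w j) = if j = i then l j.succ else 0 := by
            intro j
            rw [map_smul, ← hbs, Module.Basis.coord_apply, Module.Basis.repr_self, Finsupp.single_apply]
            simp
          simp [this]
        have h3 : tt z / tt x = l 0 := by rw [h1]; field_simp
        refine ⟨?_, fun i => ?_⟩
        · show 0 ≤ tt z / tt x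
          rw [h3]; exact hl 0
        · show tt z / tt x * A x i ≤ A z i
          rw [h3, h2]
          linarith [hl i.succ]
      · rintro ⟨h1, h2⟩
        have h1' : 0 ≤ tt z / tt x := h1
        have h2' : ∀ i, tt z / tt x * A x i ≤ A z i := h2
        refine ⟨Fin.cons (tt z / tt x) fun i => A z i - tt z / tt x * A x i, ?_, ?_⟩
        · intro i
          refine Fin.cases h1' (fun i => ?_) i
          simp only [Fin.cons_succ]
          linarith [h2' i]
        · rw [Fin.sum_univ_succ]
          simp only [Fin.cons_zero, Fin.cons_succ]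
          have e1 : b.coord 0 z = tt z / tt x * b.coord 0 x := by
            rw [ht, ht, ← htt, ← htt]
            field_simp
          generalize tt z / tt x = ρ at e1 ⊢
          have e2 : ρ • x = (ρ * b.coord 0 x) • v + ∑ i : Fin (n + 1), (ρ * b.coord i.succ x) • w i := by
            conv_lhs => rw [hexp x]
            rw [smul_add, smul_smul, Finset.smul_sum]
            simp only [smul_smul]
          rw [e2, add_assoc, ← Finset.sum_add_distrib]
          conv_lhs => rw [hexp z]
          rw [e1]
          congr 1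
          refine Finset.sum_congr rfl fun i _ => ?_
          rw [← add_smul, hA, hA]
          congr 1
          ring
    have hae : ∀ᵐ x ∂γ, tt x ≠ 0 := by
      have h1 : ∀ᵐ s ∂N1, s ≠ 0 := by
        rw [ae_iff]
        simpa using (gaussianReal_absolutelyContinuous 0 one_ne_zero) (measure_singleton (0 : ℝ))
      rw [← httlaw] at h1
      exact ae_of_ae_map (f := tt) (by fun_prop) h1
    have h1 : ∫⁻ x, (2 * gC (Fin.cons x w : Fin (n + 2) → E (n + 2))) ^ d ∂γ =
        ∫⁻ x, (fun p : (Fin (n + 1) → ℝ) × ℝ => SS (γ.map A) p.1 p.2 ^ d) (A x, tt x) ∂γ := by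
      refine lintegral_congr_ae ?_
      filter_upwards [hae] with x hx
      rw [hkey x hx]
    have hm := (measurable_SS (γ.map A)).pow_const d
    rw [h1, ← lintegral_map hm (by fun_prop), hjoint, lintegral_prod _ hm.aemeasurable]

end Pool.Agent.K6.H35.SA
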