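import Mathlib
import Pool.Agent.K6.H35.SA.Gauss

set_option autoImplicit false

namespace Pool.Agent.K6.H35.SA

open MeasureTheory ProbabilityTheory Filter Topology Set
open scoped ENNReal Matrix

instance haar_pi_pi (m n : ℕ) : (volume : Measure (Fin n → Fin m → ℝ)).IsAddHaarMeasure := by
  rw [volume_pi]
  have : (volume : Measure (Fin m → ℝ)).IsAddHaarMeasure := inferInstance
  infer_instance

theorem cube (m n : ℕ) : (volume : Measure (Fin n → Fin m → ℝ))
    (univ.pi fun _ => univ.pi fun _ => Icc 0 1) = 1 := by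
  have h : (volume : Measure (Fin m → ℝ)) (univ.pi fun _ => Icc 0 1) = 1 := by
    rw [volume_pi_pi, Real.volume_Icc]
    simp
  rw [volume_pi_pi, h]
  simp

/-- transposition preserves the volume -/
theorem transpose_mp (m n : ℕ) : MeasurePreserving
    (fun (A : Fin m → Fin n → ℝ) (j : Fin n) (i : Fin m) => A i j) volume volume := by
  let T : (Fin m → Fin n → ℝ) ≃ₗ[ℝ] (Fin n → Fin m → ℝ) :=
    { toFun := fun A j i => A i j
      invFun := fun A i j => A j i
      map_add' := fun A B => rfl
      map_smul' := fun c A => rfl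
      left_inv := fun A => rfl
      right_inv := fun A => rfl }
  let T' := T.toContinuousLinearEquiv
  have hT : ∀ A, T' A = fun j i => A i j := fun A => rfl
  have hν : (Measure.map T' (volume : Measure (Fin m → Fin n → ℝ))).IsAddHaarMeasure :=
    T'.isAddHaarMeasure_map _
  refine ⟨T'.continuous.measurable, ?_⟩
  have hc := Measure.isAddLeftInvariant_eq_smul
    (Measure.map T' (volume : Measure (Fin m → Fin n → ℝ)))
    (volume : Measure (Fin n → Fin m → ℝ))
  set c := Measure.addHaarScalarFactor (Measure.map T' (volume : Measure (Fin m → Fin n → ℝ)))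
    (volume : Measure (Fin n → Fin m → ℝ)) with hcdef
  have h2 : (Measure.map T' (volume : Measure (Fin m → Fin n → ℝ)))
      (univ.pi fun _ => univ.pi fun _ => Icc 0 1) = 1 := by
    rw [Measure.map_apply T'.continuous.measurable
      (MeasurableSet.univ_pi fun _ => MeasurableSet.univ_pi fun _ => measurableSet_Icc)]
    have h3 : T' ⁻¹' (univ.pi fun _ => univ.pi fun _ => Icc 0 1) =
      (univ.pi fun _ => univ.pi fun _ => Icc 0 1 : Set (Fin m → Fin n → ℝ)) := by
      ext A
      simp only [mem_preimage, mem_univ_pi, hT]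
      exact forall_comm
    rw [h3]
    exact cube n m
  have h4 := cube m n
  rw [hc, Measure.smul_apply, h4, ENNReal.smul_def, smul_eq_mul, mul_one] at h2
  have h5 : Measure.map T' (volume : Measure (Fin m → Fin n → ℝ)) = volume := by
    rw [hc, ENNReal.coe_eq_one.1 h2, one_smul]
  exact h5

/-- change of variables in every row -/
theorem lintegral_rows (k m : ℕ) (U : Matrix (Fin m) (Fin m) ℝ) (hU : U.det ≠ 0)
    (F : (Fin k → Fin m → ℝ) → ℝ≥0∞) (hF : Measurable F) :
    ∫⁻ V, F V = ENNReal.ofReal |U.det| ^ k * ∫⁻ L : Fin k → Fin m → ℝ, F (fun j => L j ᵥ* U) := by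
  have h1 : (volume : Measure (Fin m → ℝ)).map (fun x => x ᵥ* U) =
      (|U.det⁻¹|).toNNReal • volume := by
    have := Real.map_matrix_volume_pi_eq_smul_volume_pi (M := Uᵀ) (by rwa [Matrix.det_transpose])
    rw [Matrix.det_transpose] at this
    refine Eq.trans ?_ this
    congr 1
    ext x i
    simp [Matrix.mulVec_transpose]
  have hm : Measurable fun x : Fin m → ℝ => x ᵥ* U := by
    refine measurable_pi_lambda _ fun i => ?_
    simp only [Matrix.vecMul, dotProduct]
    fun_prop
  have hm2 : Measurable fun (L : Fin k → Fin m → ℝ) (j : Fin k) => L j ᵥ* U :=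
    measurable_pi_lambda _ fun j => hm.comp (measurable_pi_apply j)
  have h2 : (volume : Measure (Fin k → Fin m → ℝ)).map (fun L j => L j ᵥ* U) =
      ENNReal.ofReal |U.det⁻¹| ^ k • volume := by
    rw [volume_pi, Measure.pi_map_pi (hμ := fun i => by rw [h1]; infer_instance)
      fun i => hm.aemeasurable]
    simp_rw [h1]
    refine Measure.pi_eq fun s hs => ?_
    rw [Measure.smul_apply, Measure.pi_pi, smul_eq_mul]
    simp_rw [Measure.smul_apply, ENNReal.smul_def, smul_eq_mul]
    rw [Finset.prod_mul_distrib]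
    simp [ENNReal.ofReal]
  rw [← lintegral_map hF hm2, h2, lintegral_smul_measure, smul_eq_mul, ← mul_assoc, ← mul_pow,
    ← ENNReal.ofReal_mul (abs_nonneg _), ← abs_mul, mul_inv_cancel₀ hU]
  simp

/-- change of variables by left multiplication -/
theorem lintegral_left (m : ℕ) (B : Matrix (Fin m) (Fin m) ℝ) (hB : B.det ≠ 0)
    (F : (Fin m → Fin m → ℝ) → ℝ≥0∞) (hF : Measurable F) :
    ∫⁻ V, F V = ENNReal.ofReal |B.det| ^ m *
      ∫⁻ U : Fin m → Fin m → ℝ, F fun i j => (B * (Matrix.of U : Matrix (Fin m) (Fin m) ℝ)) i j := by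
  have h1 := (transpose_mp m m)
  have hm : Measurable fun (U : Fin m → Fin m → ℝ) (i j : Fin m) =>
      (B * (Matrix.of U : Matrix (Fin m) (Fin m) ℝ)) i j := by
    refine measurable_pi_lambda _ fun i => measurable_pi_lambda _ fun j => ?_
    simp only [Matrix.mul_apply, Matrix.of_apply]
    fun_prop
  have h2 : ∫⁻ V, F V = ∫⁻ V : Fin m → Fin m → ℝ, F (fun j i => V i j) :=
    (h1.lintegral_comp hF).symm
  have h3 := lintegral_rows m m Bᵀ (by rwa [Matrix.det_transpose]) (fun V => F fun j i => V i j)
    (hF.comp h1.measurable)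
  rw [h2, h3, Matrix.det_transpose]
  congr 1
  refine Eq.trans ?_ (h1.lintegral_comp (hF.comp hm))
  refine lintegral_congr fun L => ?_
  congr 1
  ext i j
  simp [Matrix.mul_apply, Matrix.vecMul, dotProduct, mul_comm]

end Pool.Agent.K6.H35.SA
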