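import Mathlib
import Pool.Agent.K6.H35.SA.Cone
import Pool.Agent.K6.H35.SA.Lin

set_option autoImplicit false

namespace Pool.Agent.K6.H35.SA

open MeasureTheory ProbabilityTheory Filter Topology Set
open scoped ENNReal Matrix

theorem ae_linearIndependent {V : Type} [NormedAddCommGroup V] [NormedSpace ℝ V]
    [FiniteDimensional ℝ V] [MeasurableSpace V] [BorelSpace V] (μ : Measure V) [SigmaFinite μ]
    (hμ : ∀ S : Submodule ℝ V, S ≠ ⊤ → μ S = 0) (m : ℕ) (hm : m ≤ Module.finrank ℝ V) :
    ∀ᵐ U ∂(Measure.pi fun _ : Fin m => μ), LinearIndependent ℝ U := by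
  induction m with
  | zero => exact Eventually.of_forall fun U => linearIndependent_empty_type
  | succ m ih =>
    have ih' := ih (by omega)
    have h := (measurePreserving_piFinSuccAbove (fun _ : Fin (m + 1) => μ) 0).symm
    have hopen : MeasurableSet {U : Fin (m + 1) → V | LinearIndependent ℝ U} :=
      isOpen_setOfPred_linearIndependent.measurableSet
    rw [← h.map_eq, ae_map_iff h.measurable.aemeasurable hopen]
    have h2 : MeasurableSet {p : V × (Fin m → V) | LinearIndependent ℝ
      ((MeasurableEquiv.piFinSuccAbove (fun _ : Fin (m + 1) => V) 0).symm p)} := h.measurable hopen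
    have hsw := (Measure.measurePreserving_swap (μ := Measure.pi fun _ : Fin m => μ) (ν := μ))
    rw [← hsw.map_eq, ae_map_iff hsw.measurable.aemeasurable h2]
    refine (Measure.ae_prod_iff_ae_ae (hsw.measurable h2)).2 ?_
    filter_upwards [ih'] with U hU
    rw [ae_iff]
    refine measure_mono_null ?_ (hμ (Submodule.span ℝ (range U)) ?_)
    · intro x hx
      by_contra hx2
      apply hx
      have : ((MeasurableEquiv.piFinSuccAbove (fun _ : Fin (m + 1) => V) 0).symm (x, U)) =
          (Fin.cons x U : Fin (m + 1) → V) := by
        ext i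
        refine Fin.cases ?_ (fun i => ?_) i <;> rfl
      show LinearIndependent ℝ ((MeasurableEquiv.piFinSuccAbove (fun _ : Fin (m + 1) => V) 0).symm (x, U))
      rw [this]
      exact linearIndependent_finCons.2 ⟨hU, hx2⟩
    · intro htop
      have h3 : Module.finrank ℝ (Submodule.span ℝ (range U)) ≤ m := by
        have := finrank_range_le_card (R := ℝ) U
        simpa [Set.finrank] using this
      rw [htop, finrank_top] at h3
      omega

end Pool.Agent.K6.H35.SA
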