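import Mathlib
import Pool.Agent.K6.H35.SA.Indep

set_option autoImplicit false

namespace Pool.Agent.K6.H35.SA

open MeasureTheory ProbabilityTheory Filter Topology Set
open scoped ENNReal Matrix MatrixOrder

/-- sum of the squares of the entries -/
def sq {k m : ℕ} (A : Fin k → Fin m → ℝ) : ℝ := ∑ i, ∑ j, A i j ^ 2

theorem sq_nonneg' {k m : ℕ} (A : Fin k → Fin m → ℝ) : 0 ≤ sq A :=
  Finset.sum_nonneg fun i _ => Finset.sum_nonneg fun j _ => sq_nonneg _

@[fun_prop]
theorem measurable_sq {k m : ℕ} : Measurable (sq : (Fin k → Fin m → ℝ) → ℝ) := by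
  unfold sq; fun_prop

theorem sq_eq_trace {k m : ℕ} (A : Matrix (Fin k) (Fin m) ℝ) : sq (fun i j => A i j) = (Aᵀ * A).trace := by
  unfold sq
  rw [Matrix.trace, Finset.sum_comm]
  refine Finset.sum_congr rfl fun i _ => ?_
  simp [Matrix.mul_apply, pow_two]

theorem gw_add (a b : ℝ) : gw (a + b) = gw a * gw b := by
  unfold gw
  rw [← ENNReal.ofReal_mul (Real.exp_pos _).le, ← Real.exp_add]
  congr 2
  ring

/-- the Gaussian measure on `Fin m → ℝ` -/
noncomputable def gam (m : ℕ) : Measure (Fin m → ℝ) := Measure.pi fun _ => gaussianReal 0 1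

instance (m : ℕ) : IsProbabilityMeasure (gam m) := by unfold gam; infer_instance

/-- the Gaussian measure on matrices -/
noncomputable def GG (k m : ℕ) : Measure (Fin k → Fin m → ℝ) := Measure.pi fun _ => gam m

instance (k m : ℕ) : IsProbabilityMeasure (GG k m) := by unfold GG; infer_instance

/-- Fubini for products, lower integrals. -/
theorem lintegral_pi_prod' {α : Type} [MeasureSpace α] [SigmaFinite (volume : Measure α)] :
    ∀ (n : ℕ) (f : Fin n → α → ℝ≥0∞), (∀ i, Measurable (f i)) →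
    ∫⁻ x : Fin n → α, ∏ i, f i (x i) = ∏ i, ∫⁻ y, f i y := by
  intro n
  induction n with
  | zero => intro f _; simp [volume_pi]
  | succ n ih =>
    intro f hf
    have h := (volume_preserving_piFinSuccAbove (fun _ : Fin (n + 1) => α) 0).symm
    rw [← h.lintegral_comp_emb (MeasurableEquiv.measurableEmbedding _)]
    have h1 : ∀ z : α × (Fin n → α), ∏ i, f i ((MeasurableEquiv.piFinSuccAbove
        (fun _ : Fin (n + 1) => α) 0).symm z i) = f 0 z.1 * ∏ i, f (Fin.succ i) (z.2 i) := by
      intro z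
      rw [Fin.prod_univ_succ]
      rfl
    simp only [h1]
    rw [Measure.volume_eq_prod]
    rw [lintegral_prod_mul (f := f 0) (g := fun y : Fin n → α => ∏ i, f (Fin.succ i) (y i))
      (hf 0).aemeasurable (Measurable.aemeasurable (by fun_prop)), ih _ fun i => hf _,
      Fin.prod_univ_succ]

theorem GG_density (k m : ℕ) : GG k m = (volume : Measure (Fin k → Fin m → ℝ)).withDensity
    (fun V => gc ^ (m * k) * gw (sq V)) := by
  have hm : Measurable fun x : Fin m → ℝ => gc ^ m * gw (∑ i, x i ^ 2) :=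
    (measurable_gw.comp (by fun_prop)).const_mul _
  unfold GG
  refine Measure.pi_eq fun s hs => ?_
  rw [withDensity_apply _ (MeasurableSet.univ_pi hs), ← lintegral_indicator (MeasurableSet.univ_pi hs)]
  have h1 : ∀ x : Fin k → Fin m → ℝ,
      (univ.pi s).indicator (fun V => gc ^ (m * k) * gw (sq V)) x =
      ∏ i, (s i).indicator (fun x : Fin m → ℝ => gc ^ m * gw (∑ i, x i ^ 2)) (x i) := by
    intro x
    by_cases hx : x ∈ univ.pi s
    · rw [indicator_of_mem hx]
      have : ∀ i, (s i).indicator (fun x : Fin m → ℝ => gc ^ m * gw (∑ i, x i ^ 2)) (x i) =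
          gc ^ m * gw (∑ j, x i j ^ 2) := fun i => by
        rw [indicator_of_mem (hx i (mem_univ i))]
      simp_rw [this]
      rw [Finset.prod_mul_distrib, gw_sum]
      simp [sq, pow_mul]
    · rw [indicator_of_notMem hx]
      simp only [mem_univ_pi, not_forall] at hx
      obtain ⟨i, hi⟩ := hx
      refine (Finset.prod_eq_zero (Finset.mem_univ i) ?_).symm
      rw [indicator_of_notMem hi]
  simp only [h1]
  rw [lintegral_pi_prod' k _ fun i => hm.indicator (hs i)]
  refine Finset.prod_congr rfl fun i _ => ?_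
  rw [lintegral_indicator (hs i)]
  unfold gam
  rw [pi_gaussian, withDensity_apply _ (hs i)]

/-- the matrices with nonnegative entries -/
def PA (k m : ℕ) : Set (Fin k → Fin m → ℝ) := {L | ∀ j i, 0 ≤ L j i}

theorem measurableSet_PA (k m : ℕ) : MeasurableSet (PA k m) := by
  have : PA k m = ⋂ j, ⋂ i, {L : Fin k → Fin m → ℝ | 0 ≤ L j i} := by ext; simp [PA]
  rw [this]
  exact MeasurableSet.iInter fun j => MeasurableSet.iInter fun i =>
    measurableSet_le measurable_const (by fun_prop)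

/-- the entries of the product -/
def mm {k m : ℕ} (L : Fin k → Fin m → ℝ) (U : Fin m → Fin m → ℝ) : Fin k → Fin m → ℝ :=
  fun j => L j ᵥ* (Matrix.of U)

theorem mm_eq {k m : ℕ} (L : Fin k → Fin m → ℝ) (U : Fin m → Fin m → ℝ) :
    mm L U = fun i j => ((Matrix.of L : Matrix (Fin k) (Fin m) ℝ) * Matrix.of U) i j := by
  ext i j
  simp [mm, Matrix.mul_apply, Matrix.vecMul, dotProduct]

@[fun_prop]
theorem measurable_mm {k m : ℕ} : Measurable fun p : (Fin k → Fin m → ℝ) × (Fin m → Fin m → ℝ) =>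
    mm p.1 p.2 := by
  refine measurable_pi_lambda _ fun i => measurable_pi_lambda _ fun j => ?_
  simp only [mm_eq, Matrix.mul_apply, Matrix.of_apply]
  fun_prop

theorem mem_pos_iff {m : ℕ} (U : Fin m → Fin m → ℝ) (hU : LinearIndependent ℝ U) (l : Fin m → ℝ) :
    (l ᵥ* (Matrix.of U)) ∈ pos U ↔ ∀ i, 0 ≤ l i := by
  have h : ∀ l : Fin m → ℝ, l ᵥ* (Matrix.of U) = ∑ i, l i • U i := by
    intro l
    ext j
    simp [Matrix.vecMul, dotProduct]
  rw [h]
  constructor
  · rintro ⟨l', hl', he⟩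
    have := (Fintype.linearIndependent_iffₛ.1 hU) l l' he
    intro i
    rw [this i]
    exact hl' i
  · intro hl
    exact ⟨l, hl, rfl⟩

theorem det_ne_zero_of {m : ℕ} {U : Fin m → Fin m → ℝ} (hU : LinearIndependent ℝ U) :
    (Matrix.of U).det ≠ 0 := by
  have : IsUnit (Matrix.of U) := Matrix.linearIndependent_rows_iff_isUnit.1 hU
  rw [Matrix.isUnit_iff_isUnit_det] at this
  exact this.ne_zero

theorem ae_li_volume (m : ℕ) : ∀ᵐ U ∂(volume : Measure (Fin m → Fin m → ℝ)),
    LinearIndependent ℝ U := by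
  rw [volume_pi]
  refine ae_linearIndependent (volume : Measure (Fin m → ℝ)) (fun S hS => ?_) m (by simp)
  exact Measure.addHaar_submodule _ S hS

/-- the main integrand -/
noncomputable def kk (k m : ℕ) : ℝ≥0∞ :=
  ∫⁻ U : Fin m → Fin m → ℝ, ENNReal.ofReal |(Matrix.of U).det| ^ k * gw (sq U)

noncomputable def phi (k m : ℕ) (L : Fin k → Fin m → ℝ) : ℝ≥0∞ :=
  (ENNReal.ofReal (Real.sqrt (1 + (Matrix.of L)ᵀ * (Matrix.of L) : Matrix (Fin m) (Fin m) ℝ).det) ^
    (m + k))⁻¹

theorem measurable_det (m : ℕ) : Measurable fun U : Fin m → Fin m → ℝ => (Matrix.of U).det := by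
  simp only [Matrix.det_apply, Matrix.of_apply]
  fun_prop

/-- the inner integral -/
theorem inner_int (k m : ℕ) (L : Fin k → Fin m → ℝ) :
    ∫⁻ U : Fin m → Fin m → ℝ, ENNReal.ofReal |(Matrix.of U).det| ^ k * (gw (sq U) * gw (sq (mm L U))) =
      kk k m * phi k m L := by
  set S : Matrix (Fin m) (Fin m) ℝ := 1 + (Matrix.of L)ᵀ * (Matrix.of L) with hS
  have hSp : S.PosDef := by
    rw [hS]
    refine Matrix.PosDef.add_posSemidef Matrix.PosDef.one ?_
    simpa using Matrix.posSemidef_conjTranspose_mul_self (Matrix.of L : Matrix (Fin k) (Fin m) ℝ)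
  obtain ⟨B, hB⟩ := CStarAlgebra.nonneg_iff_eq_star_mul_self.mp hSp.posSemidef.nonneg
  have hB' : S = Bᵀ * B := by
    rw [hB, Matrix.star_eq_conjTranspose]
    simp
  have hdet : S.det = B.det ^ 2 := by
    rw [hB', Matrix.det_mul, Matrix.det_transpose, pow_two]
  have hSdet : 0 < S.det := hSp.det_pos
  have hB0 : B.det ≠ 0 := by
    intro h
    rw [hdet, h] at hSdet
    simp at hSdet
  have hsqrt : Real.sqrt S.det = |B.det| := by rw [hdet, Real.sqrt_sq_eq_abs]
  have hkey : ∀ U : Fin m → Fin m → ℝ, gw (sq U) * gw (sq (mm L U)) =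
      gw (sq fun i j => (B * (Matrix.of U : Matrix (Fin m) (Fin m) ℝ)) i j) := by
    intro U
    rw [← gw_add]
    congr 1
    have e1 : sq U = ((Matrix.of U)ᵀ * (Matrix.of U)).trace := sq_eq_trace (Matrix.of U)
    rw [e1, mm_eq, sq_eq_trace, sq_eq_trace, ← Matrix.trace_add]
    congr 1
    have e2 : (B * Matrix.of U)ᵀ * (B * Matrix.of U) = (Matrix.of U)ᵀ * (Bᵀ * B) * (Matrix.of U) := by
      rw [Matrix.transpose_mul]
      simp only [Matrix.mul_assoc]
    rw [e2, ← hB', hS, Matrix.transpose_mul]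
    simp only [Matrix.mul_add, Matrix.add_mul, Matrix.mul_one, Matrix.mul_assoc]
  simp_rw [hkey]
  have hF : Measurable fun V : Fin m → Fin m → ℝ =>
      ENNReal.ofReal |(Matrix.of V).det| ^ k * gw (sq V) := by
    have := measurable_det m
    have := measurable_gw
    fun_prop
  have h1 := lintegral_left m B hB0 _ hF
  have h2 : ∀ U : Fin m → Fin m → ℝ,
      (Matrix.of fun i j => (B * (Matrix.of U : Matrix (Fin m) (Fin m) ℝ)) i j).det =
      B.det * (Matrix.of U).det := by
    intro U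
    rw [← Matrix.det_mul]
    rfl
  simp_rw [h2, abs_mul, ENNReal.ofReal_mul (abs_nonneg _), mul_pow, mul_assoc] at h1
  have hBpos : 0 < |B.det| := abs_pos.2 hB0
  have hb0 : ENNReal.ofReal |B.det| ≠ 0 := by simpa using hB0
  have hbt : ENNReal.ofReal |B.det| ≠ ⊤ := ENNReal.ofReal_ne_top
  have hmeas : Measurable fun U : Fin m → Fin m → ℝ => ENNReal.ofReal |(Matrix.of U).det| ^ k *
      gw (sq fun i j => (B * (Matrix.of U : Matrix (Fin m) (Fin m) ℝ)) i j) := by
    have e := measurable_det m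
    have e' := measurable_gw
    have e2 : Measurable fun (U : Fin m → Fin m → ℝ) (i j : Fin m) =>
        (B * (Matrix.of U : Matrix (Fin m) (Fin m) ℝ)) i j := by
      refine measurable_pi_lambda _ fun i => measurable_pi_lambda _ fun j => ?_
      simp only [Matrix.mul_apply, Matrix.of_apply]
      fun_prop
    have e3 : Measurable fun U : Fin m → Fin m → ℝ =>
      gw (sq fun i j => (B * (Matrix.of U : Matrix (Fin m) (Fin m) ℝ)) i j) :=
      e'.comp (measurable_sq.comp e2)
    fun_prop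
  rw [lintegral_const_mul _ hmeas] at h1
  unfold kk phi
  rw [← hS, hsqrt, h1, pow_add, mul_assoc, ← mul_assoc, ← mul_assoc]
  set b := ENNReal.ofReal |B.det|
  set I := ∫⁻ U : Fin m → Fin m → ℝ, ENNReal.ofReal |(Matrix.of U).det| ^ k *
      gw (sq fun i j => (B * (Matrix.of U : Matrix (Fin m) (Fin m) ℝ)) i j)
  have hc : b ^ m * b ^ k ≠ 0 := mul_ne_zero (pow_ne_zero _ hb0) (pow_ne_zero _ hb0)
  have hct : b ^ m * b ^ k ≠ ⊤ := ENNReal.mul_ne_top (ENNReal.pow_ne_top hbt) (ENNReal.pow_ne_top hbt)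
  rw [mul_right_comm, ENNReal.mul_inv_cancel hc hct, one_mul]

end Pool.Agent.K6.H35.SA
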