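import Mathlib
import Pool.Agent.K6.H35.SA.Symm

set_option autoImplicit false

namespace Pool.Agent.K6.H35.SA

open MeasureTheory ProbabilityTheory Filter Topology Set
open scoped ENNReal Matrix MatrixOrder

/-- the moments -/
noncomputable def MM (m k : ℕ) : ℝ≥0∞ := ∫⁻ U, gC U ^ k ∂(gl m m)

theorem pos_toLp {m n : ℕ} (U : Fin m → Fin n → ℝ) :
    (WithLp.toLp 2 : (Fin n → ℝ) → E n) ⁻¹' (pos fun i => (WithLp.toLp 2 (U i) : E n)) = pos U := by
  ext x
  constructor
  · rintro ⟨l, hl, h⟩
    refine ⟨l, hl, ?_⟩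
    have := congrArg WithLp.ofLp h
    simpa using this
  · rintro ⟨l, hl, rfl⟩
    exact ⟨l, hl, by simp⟩

theorem gC_toLp {m n : ℕ} (U : Fin m → Fin n → ℝ) :
    gC (fun i => (WithLp.toLp 2 (U i) : E n)) = gam n (pos U) := by
  unfold gC gam
  rw [← map_pi_eq_stdGaussian, Measure.map_apply (by fun_prop) (measurableSet_pos _), pos_toLp]

theorem gl_eq (m n : ℕ) : gl m n = (GG m n).map fun U i => WithLp.toLp 2 (U i) :=
  pi_stdGaussian m n

theorem MM_eq (m k : ℕ) : MM m k = ∫⁻ U, gam m (pos U) ^ k ∂(GG m m) := by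
  unfold MM
  rw [gl_eq, lintegral_map (measurable_gC.pow_const k) (by fun_prop)]
  simp_rw [gC_toLp]

theorem measurable_phi (k m : ℕ) : Measurable (phi k m) := by
  unfold phi
  refine Measurable.inv (Measurable.pow_const (Measurable.ennreal_ofReal ?_) _)
  refine Measurable.sqrt ?_
  have h1 : Measurable fun (L : Fin k → Fin m → ℝ) (i j : Fin m) =>
      (1 + (Matrix.of L)ᵀ * (Matrix.of L) : Matrix (Fin m) (Fin m) ℝ) i j := by
    refine measurable_pi_lambda _ fun i => measurable_pi_lambda _ fun j => ?_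
    simp only [Matrix.add_apply, Matrix.mul_apply, Matrix.transpose_apply, Matrix.of_apply]
    fun_prop
  exact (measurable_det m).comp h1

theorem measurable_mm_left {k m : ℕ} (U : Fin m → Fin m → ℝ) :
    Measurable fun L : Fin k → Fin m → ℝ => mm L U := by
  refine measurable_pi_lambda _ fun i => measurable_pi_lambda _ fun j => ?_
  simp only [mm_eq, Matrix.mul_apply, Matrix.of_apply]
  fun_prop

theorem measurable_mm_right {k m : ℕ} (L : Fin k → Fin m → ℝ) :
    Measurable fun U : Fin m → Fin m → ℝ => mm L U := by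
  refine measurable_pi_lambda _ fun i => measurable_pi_lambda _ fun j => ?_
  simp only [mm_eq, Matrix.mul_apply, Matrix.of_apply]
  fun_prop

noncomputable def QQ (m k : ℕ) (A : Set (Fin k → Fin m → ℝ)) : ℝ≥0∞ :=
  ∫⁻ U : Fin m → Fin m → ℝ, gc ^ (m * m) * gw (sq U) * (ENNReal.ofReal |(Matrix.of U).det| ^ k *
    ∫⁻ L : Fin k → Fin m → ℝ, A.indicator 1 L * (gc ^ (m * k) * gw (sq (mm L U))))

theorem QQ_eq (m k : ℕ) (A : Set (Fin k → Fin m → ℝ)) (hA : MeasurableSet A) :
    QQ m k A = gc ^ (m * m) * gc ^ (m * k) * kk k m * ∫⁻ L, A.indicator 1 L * phi k m L := by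
  have hd := measurable_det m
  have hg := measurable_gw
  have hi : Measurable (A.indicator (1 : (Fin k → Fin m → ℝ) → ℝ≥0∞)) := measurable_one.indicator hA
  have hsm : Measurable fun p : (Fin m → Fin m → ℝ) × (Fin k → Fin m → ℝ) => sq (mm p.2 p.1) :=
    measurable_sq.comp (measurable_mm.comp measurable_swap)
  have h1 : QQ m k A = ∫⁻ U : Fin m → Fin m → ℝ, ∫⁻ L : Fin k → Fin m → ℝ,
      gc ^ (m * m) * gc ^ (m * k) * (A.indicator 1 L *
        (ENNReal.ofReal |(Matrix.of U).det| ^ k * (gw (sq U) * gw (sq (mm L U))))) := by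
    unfold QQ
    refine lintegral_congr fun U => ?_
    have hm1 : Measurable fun L : Fin k → Fin m → ℝ => A.indicator 1 L *
        (gc ^ (m * k) * gw (sq (mm L U))) := by
      have : Measurable fun L : Fin k → Fin m → ℝ => sq (mm L U) :=
        measurable_sq.comp (measurable_mm_left U)
      exact hi.mul ((hg.comp this).const_mul _)
    have e : ∀ L : Fin k → Fin m → ℝ, gc ^ (m * m) * gc ^ (m * k) * (A.indicator 1 L *
        (ENNReal.ofReal |(Matrix.of U).det| ^ k * (gw (sq U) * gw (sq (mm L U))))) =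
        (gc ^ (m * m) * gw (sq U) * ENNReal.ofReal |(Matrix.of U).det| ^ k) *
        (A.indicator 1 L * (gc ^ (m * k) * gw (sq (mm L U)))) := by
      intro L
      generalize A.indicator (1 : (Fin k → Fin m → ℝ) → ℝ≥0∞) L = a1
      generalize gw (sq (mm L U)) = a2
      generalize gw (sq U) = a3
      generalize ENNReal.ofReal |(Matrix.of U).det| ^ k = a4
      generalize gc ^ (m * m) = a5
      generalize gc ^ (m * k) = a6
      ring
    have e2 := lintegral_const_mul (μ := (volume : Measure (Fin k → Fin m → ℝ)))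
      (gc ^ (m * m) * gw (sq U) * ENNReal.ofReal |(Matrix.of U).det| ^ k) hm1
    rw [lintegral_congr e, e2, mul_assoc (gc ^ (m * m) * gw (sq U))]
  rw [h1, lintegral_lintegral_swap]
  · rw [← lintegral_const_mul]
    · refine lintegral_congr fun L => ?_
      have hm2 : Measurable fun U : Fin m → Fin m → ℝ => ENNReal.ofReal |(Matrix.of U).det| ^ k *
          (gw (sq U) * gw (sq (mm L U))) := by
        have h5 : Measurable fun U : Fin m → Fin m → ℝ => sq (mm L U) :=
          measurable_sq.comp (measurable_mm_right L)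
        exact (hd.abs.ennreal_ofReal.pow_const k).mul ((hg.comp measurable_sq).mul (hg.comp h5))
      rw [lintegral_const_mul _ (hm2.const_mul _), lintegral_const_mul _ hm2, inner_int]
      generalize A.indicator (1 : (Fin k → Fin m → ℝ) → ℝ≥0∞) L = a1
      generalize phi k m L = a2
      generalize kk k m = a3
      generalize gc ^ (m * m) = a5
      generalize gc ^ (m * k) = a6
      ring
    · exact hi.mul (measurable_phi k m)
  · refine Measurable.aemeasurable ?_
    refine Measurable.const_mul ?_ _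
    refine (hi.comp measurable_snd).mul ?_
    refine ((hd.comp measurable_fst).abs.ennreal_ofReal.pow_const k).mul ?_
    exact (hg.comp (measurable_sq.comp measurable_fst)).mul (hg.comp hsm)

theorem inner_GG (m k : ℕ) (U : Fin m → Fin m → ℝ) (hU : LinearIndependent ℝ U)
    (S : Set (Fin k → Fin m → ℝ)) (hS : MeasurableSet S) :
    GG k m S = ENNReal.ofReal |(Matrix.of U).det| ^ k *
    ∫⁻ L : Fin k → Fin m → ℝ, {L | mm L U ∈ S}.indicator 1 L * (gc ^ (m * k) * gw (sq (mm L U))) := by
  rw [GG_density, withDensity_apply _ hS, ← lintegral_indicator hS]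
  have hg := measurable_gw
  have hm : Measurable fun V : Fin k → Fin m → ℝ => gc ^ (m * k) * gw (sq V) := by fun_prop
  rw [lintegral_rows k m (Matrix.of U) (det_ne_zero_of hU) _ (hm.indicator hS)]
  congr 1
  refine lintegral_congr fun L => ?_
  by_cases h : mm L U ∈ S
  · rw [indicator_of_mem (show L ∈ {L | mm L U ∈ S} from h)]
    have : (fun j => L j ᵥ* Matrix.of U) ∈ S := h
    rw [indicator_of_mem this]
    simp only [Pi.one_apply, one_mul]
    rfl
  · rw [indicator_of_notMem (show L ∉ {L | mm L U ∈ S} from h)]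
    have : (fun j => L j ᵥ* Matrix.of U) ∉ S := h
    rw [indicator_of_notMem this]
    simp

theorem QQ_univ (m k : ℕ) : QQ m k univ = 1 := by
  unfold QQ
  have h1 : ∀ᵐ U ∂(volume : Measure (Fin m → Fin m → ℝ)),
      gc ^ (m * m) * gw (sq U) * (ENNReal.ofReal |(Matrix.of U).det| ^ k *
    ∫⁻ L : Fin k → Fin m → ℝ, (univ : Set (Fin k → Fin m → ℝ)).indicator 1 L *
      (gc ^ (m * k) * gw (sq (mm L U)))) = gc ^ (m * m) * gw (sq U) := by
    filter_upwards [ae_li_volume m] with U hU
    have := inner_GG m k U hU univ MeasurableSet.univ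
    rw [measure_univ] at this
    have h2 : {L : Fin k → Fin m → ℝ | mm L U ∈ (univ : Set (Fin k → Fin m → ℝ))} = univ := by
      ext; simp
    rw [h2] at this
    rw [← this, mul_one]
  rw [lintegral_congr_ae h1]
  have h3 := measure_univ (μ := GG m m)
  rw [GG_density, withDensity_apply _ MeasurableSet.univ, Measure.restrict_univ] at h3
  exact h3

theorem MM_QQ (m k : ℕ) : MM m k = QQ m k (PA k m) := by
  rw [MM_eq, GG_density]
  have hg := measurable_gw
  have hmeas : Measurable fun U : Fin m → Fin m → ℝ => gam m (pos U) ^ k := by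
    have : Measurable fun U : Fin m → Fin m → ℝ => gam m (pos U) :=
      measurable_measure_prodMk_left (measurableSet_graph m (Fin m → ℝ))
    exact this.pow_const k
  rw [lintegral_withDensity_eq_lintegral_mul _ (by fun_prop) hmeas]
  unfold QQ
  refine lintegral_congr_ae ?_
  filter_upwards [ae_li_volume m] with U hU
  rw [Pi.mul_apply]
  congr 1
  have h1 : gam m (pos U) ^ k = GG k m (univ.pi fun _ => pos U) := by
    unfold GG
    rw [Measure.pi_pi]
    simp
  rw [h1, inner_GG m k U hU _ (MeasurableSet.univ_pi fun _ => measurableSet_pos U)]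
  have h2 : {L : Fin k → Fin m → ℝ | mm L U ∈ univ.pi fun _ => pos U} = PA k m := by
    ext L
    simp only [mem_univ_pi, PA]
    refine forall_congr' fun j => ?_
    exact mem_pos_iff U hU (L j)
  rw [h2]

/-- the symmetry of the moments -/
theorem MM_symm (m k : ℕ) : MM m k = MM k m := by
  have key : ∀ m k : ℕ, MM m k * ∫⁻ L, phi k m L = ∫⁻ L, (PA k m).indicator 1 L * phi k m L := by
    intro m k
    have h1 := QQ_eq m k univ MeasurableSet.univ
    have h2 := QQ_eq m k (PA k m) (measurableSet_PA k m)
    rw [QQ_univ] at h1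
    rw [← MM_QQ] at h2
    simp only [indicator_univ, Pi.one_apply, one_mul] at h1
    rw [h2, mul_assoc, mul_comm (∫⁻ L, (PA k m).indicator 1 L * phi k m L), ← mul_assoc, ← h1,
      one_mul]
  have hne : ∀ m k : ℕ, (∫⁻ L, phi k m L) ≠ 0 ∧ (∫⁻ L, phi k m L) ≠ ⊤ := by
    intro m k
    have h1 := QQ_eq m k univ MeasurableSet.univ
    rw [QQ_univ] at h1
    simp only [indicator_univ, Pi.one_apply, one_mul] at h1
    constructor
    · intro h
      rw [h, mul_zero] at h1
      exact one_ne_zero h1
    · intro h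
      rw [h] at h1
      by_cases h3 : gc ^ (m * m) * gc ^ (m * k) * kk k m = 0
      · rw [h3, zero_mul] at h1
        exact one_ne_zero h1
      · rw [ENNReal.mul_top h3] at h1
        exact ENNReal.one_ne_top h1
  have hphi : ∀ L : Fin k → Fin m → ℝ, phi k m L = phi m k (fun j i => L i j) := by
    intro L
    unfold phi
    have : (Matrix.of fun j i => L i j : Matrix (Fin m) (Fin k) ℝ) = (Matrix.of L)ᵀ := rfl
    rw [add_comm k m, this, Matrix.transpose_transpose, Matrix.det_one_add_mul_comm]
  have hmp := transpose_mp k m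
  have hmphi := measurable_phi
  have hI : ∫⁻ L, phi k m L = ∫⁻ L, phi m k L := by
    rw [← hmp.lintegral_comp (hmphi m k)]
    exact lintegral_congr hphi
  have hJ : ∫⁻ L, (PA k m).indicator 1 L * phi k m L = ∫⁻ L, (PA m k).indicator 1 L * phi m k L := by
    refine Eq.trans ?_ (hmp.lintegral_comp
      ((measurable_one.indicator (measurableSet_PA m k)).mul (hmphi m k)))
    refine lintegral_congr fun L => ?_
    rw [hphi]
    show _ = (PA m k).indicator 1 (fun j i => L i j) * phi m k (fun j i => L i j)
    congr 1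
    by_cases h : L ∈ PA k m
    · rw [indicator_of_mem h, indicator_of_mem]
      · rfl
      · exact fun j i => h i j
    · rw [indicator_of_notMem h, indicator_of_notMem]
      exact fun h' => h fun j i => h' i j
  have h1 := key m k
  have h2 := key k m
  rw [hI, hJ, ← h2] at h1
  exact (ENNReal.mul_left_inj (hne k m).1 (hne k m).2).1 h1

end Pool.Agent.K6.H35.SA
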