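import Mathlib
import Pool.Agent.K6.H35.SA.Geo
import Pool.Agent.K6.H35.SA.Symm2

set_option autoImplicit false

namespace Pool.Agent.K6.H35.SA

open MeasureTheory ProbabilityTheory Filter Topology Set
open scoped ENNReal

theorem ae_li_gl (n : ℕ) : ∀ᵐ w ∂(gl (n + 1) (n + 2)), LinearIndependent ℝ w := by
  refine ae_linearIndependent (stdGaussian (E (n + 2))) (fun S hS => ?_) (n + 1) (by simp)
  rw [stdGaussian_density]
  exact withDensity_absolutelyContinuous _ _ (Measure.addHaar_submodule _ S hS)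

theorem lintegral_cons (m n : ℕ) (f : (Fin (m + 1) → E n) → ℝ≥0∞) (hf : Measurable f) :
    ∫⁻ U, f U ∂(gl (m + 1) n) = ∫⁻ w, ∫⁻ x, f (Fin.cons x w) ∂(stdGaussian (E n)) ∂(gl m n) := by
  have h := (measurePreserving_piFinSuccAbove (fun _ : Fin (m + 1) => stdGaussian (E n)) 0).symm
  have h1 : ∫⁻ U, f U ∂(gl (m + 1) n) = ∫⁻ p, f (Fin.cons p.1 p.2)
      ∂((stdGaussian (E n)).prod (gl m n)) := by
    unfold gl
    rw [← h.lintegral_comp_emb (MeasurableEquiv.measurableEmbedding _)]
    refine lintegral_congr fun p => ?_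
    congr 1
    ext i
    refine Fin.cases ?_ (fun i => ?_) i <;> rfl
  have hm : Measurable fun p : E n × (Fin m → E n) =>
      f (Fin.cons p.1 p.2 : Fin (m + 1) → E n) := by
    refine hf.comp (measurable_pi_lambda _ fun i => ?_)
    refine Fin.cases ?_ (fun i => ?_) i
    · exact measurable_fst
    · exact (measurable_pi_apply i).comp measurable_snd
  rw [h1, lintegral_prod_symm' _ hm]

/-- the inner integral -/
noncomputable def Psi (n d : ℕ) (w : Fin (n + 1) → E (n + 2)) : ℝ≥0∞ :=
  d * ∫⁻ x, (2 * gC (Fin.cons x w : Fin (n + 2) → E (n + 2))) ^ d ∂(stdGaussian (E (n + 2)))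

theorem measurable_cons' {n d : ℕ} : Measurable fun p : (Fin (n + 1) → E (n + 2)) × E (n + 2) =>
    (2 * gC (Fin.cons p.2 p.1 : Fin (n + 2) → E (n + 2))) ^ d := by
  refine Measurable.pow_const (Measurable.const_mul (measurable_gC.comp ?_) _) d
  refine measurable_pi_lambda _ fun i => ?_
  refine Fin.cases ?_ (fun i => ?_) i
  · exact measurable_snd
  · exact (measurable_pi_apply i).comp measurable_fst

theorem measurable_Psi (n d : ℕ) : Measurable (Psi n d) := by
  unfold Psi
  exact Measurable.const_mul (Measurable.lintegral_prod_right' measurable_cons') _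

theorem Psi_spec (n : ℕ) (w : Fin (n + 1) → E (n + 2)) (hw : LinearIndependent ℝ w) :
    (∀ d, Psi n d w ≤ CC) ∧ ∃ c : ℝ≥0∞, 0 < c ∧ Tendsto (fun d => Psi n d w) atTop (𝓝 c) := by
  obtain ⟨κ, hκp, σ, hσ, hκ, hpos, hd⟩ := geo w hw
  have h1 : ∀ d, Psi n d w = ∫⁻ a, TT κ d a ∂κ := by
    intro d
    unfold Psi TT
    rw [hd, lintegral_const_mul]
    exact Measurable.lintegral_prod_right' ((measurable_SS κ).pow_const d)
  obtain ⟨c, hc, hc'⟩ := int_TT κ σ hσ hκ
  refine ⟨fun d => ?_, c, hc' hpos, ?_⟩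
  · rw [h1]
    exact int_TT_le κ σ hσ hκ d
  · simp_rw [h1]
    exact hc

theorem MM_Psi (n d : ℕ) : (d : ℝ≥0∞) * 2 ^ d * MM (n + 2) d = ∫⁻ w, Psi n d w ∂(gl (n + 1) (n + 2)) := by
  unfold MM Psi
  rw [lintegral_cons (n + 1) (n + 2) _ (measurable_gC.pow_const d), lintegral_const_mul, mul_assoc]
  · congr 1
    rw [← lintegral_const_mul]
    · refine lintegral_congr fun w => ?_
      rw [← lintegral_const_mul]
      · refine lintegral_congr fun x => ?_
        rw [mul_pow]
      · have : Measurable fun x : E (n + 2) => (Fin.cons x w : Fin (n + 2) → E (n + 2)) := by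
          refine measurable_pi_lambda _ fun i => ?_
          refine Fin.cases ?_ (fun i => ?_) i
          · exact measurable_id
          · exact measurable_const
        exact (measurable_gC.comp this).pow_const d
    · refine Measurable.lintegral_prod_right' (f := fun p : (Fin (n + 1) → E (n + 2)) × E (n + 2) =>
        gC (Fin.cons p.2 p.1 : Fin (n + 2) → E (n + 2)) ^ d) ?_
      refine Measurable.pow_const (measurable_gC.comp ?_) d
      refine measurable_pi_lambda _ fun i => ?_
      refine Fin.cases ?_ (fun i => ?_) i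
      · exact measurable_snd
      · exact (measurable_pi_apply i).comp measurable_fst
  · exact Measurable.lintegral_prod_right' measurable_cons'

theorem MM_bound (n d : ℕ) : (d : ℝ≥0∞) * 2 ^ d * MM (n + 2) d ≤ CC := by
  rw [MM_Psi]
  calc ∫⁻ w, Psi n d w ∂(gl (n + 1) (n + 2)) ≤ ∫⁻ _, CC ∂(gl (n + 1) (n + 2)) := by
        refine lintegral_mono_ae ?_
        filter_upwards [ae_li_gl n] with w hw
        exact (Psi_spec n w hw).1 d
    _ = CC := by simp

/-- the limit of the moments -/
theorem MM_lim (n : ℕ) : ∃ c : ℝ≥0∞, 0 < c ∧ c ≠ ⊤ ∧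
    Tendsto (fun d : ℕ => (d : ℝ≥0∞) * 2 ^ d * MM (n + 2) d) atTop (𝓝 c) := by
  classical
  let G : (Fin (n + 1) → E (n + 2)) → ℝ≥0∞ := fun w =>
    if h : LinearIndependent ℝ w then (Psi_spec n w h).2.choose else 0
  have hG : ∀ᵐ w ∂(gl (n + 1) (n + 2)), Tendsto (fun d => Psi n d w) atTop (𝓝 (G w)) ∧ 0 < G w := by
    filter_upwards [ae_li_gl n] with w hw
    have : G w = (Psi_spec n w hw).2.choose := dif_pos hw
    rw [this]
    exact ⟨(Psi_spec n w hw).2.choose_spec.2, (Psi_spec n w hw).2.choose_spec.1⟩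
  have hmeas : AEMeasurable G (gl (n + 1) (n + 2)) :=
    aemeasurable_of_tendsto_metrizable_ae atTop (fun d => (measurable_Psi n d).aemeasurable)
      (hG.mono fun w hw => hw.1)
  have hlim : Tendsto (fun d : ℕ => (d : ℝ≥0∞) * 2 ^ d * MM (n + 2) d) atTop
      (𝓝 (∫⁻ w, G w ∂(gl (n + 1) (n + 2)))) := by
    simp_rw [MM_Psi]
    refine tendsto_lintegral_of_dominated_convergence (fun _ => CC) (fun d => measurable_Psi n d)
      (fun d => ?_) ?_ (hG.mono fun w hw => hw.1)
    · filter_upwards [ae_li_gl n] with w hw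
      exact (Psi_spec n w hw).1 d
    · simp [CC_lt_top.ne]
  refine ⟨_, ?_, ?_, hlim⟩
  · rw [pos_iff_ne_zero]
    intro h0
    rw [lintegral_eq_zero_iff' hmeas] at h0
    have h1 : ∀ᵐ _ ∂(gl (n + 1) (n + 2)), False := by
      filter_upwards [hG, h0] with w hw hw0
      exact hw.2.ne' hw0
    rw [ae_iff] at h1
    simp at h1
  · exact ((le_of_tendsto' hlim fun d => MM_bound n d).trans_lt CC_lt_top).ne

end Pool.Agent.K6.H35.SA
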