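import Mathlib
import Pool.Agent.K6.H35.SA.Lim

set_option autoImplicit false

namespace Pool.Agent.K6.H35.SA

open MeasureTheory ProbabilityTheory Filter Topology Set
open scoped ENNReal NNReal

/-- the unit interval -/
abbrev XX : Type := Icc (0 : ℝ) 1

/-- the solid angle as a point of the unit interval -/
noncomputable def xi (d : ℕ) (U : Fin d → E d) : XX :=
  ⟨(gC U).toReal, ENNReal.toReal_nonneg, by
    have := ENNReal.toReal_mono ENNReal.one_ne_top (gC_le_one U)
    simpa using this⟩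

theorem measurable_xi (d : ℕ) : Measurable (xi d) := by
  unfold xi
  exact Measurable.subtype_mk measurable_gC.ennreal_toReal

/-- the measure with density `x ^ 2` -/
noncomputable def nuM (d : ℕ) : Measure XX :=
  ((2 : ℝ≥0∞) ^ d * (d : ℝ≥0∞)) • ((gl d d).map (xi d)).withDensity
    fun x => ENNReal.ofReal ((x : ℝ) ^ 2)

theorem nuM_moment (d j : ℕ) : ∫⁻ x, ENNReal.ofReal ((x : ℝ) ^ j) ∂(nuM d) =
    (d : ℝ≥0∞) * 2 ^ d * MM (j + 2) d := by
  unfold nuM
  rw [lintegral_smul_measure, smul_eq_mul, mul_comm (2 ^ d) (d : ℝ≥0∞), MM_symm]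
  congr 1
  rw [lintegral_withDensity_eq_lintegral_mul _ (by fun_prop) (by fun_prop),
    lintegral_map (by fun_prop) (measurable_xi d)]
  unfold MM
  refine lintegral_congr fun U => ?_
  have h0 : (0 : ℝ) ≤ (gC U).toReal := ENNReal.toReal_nonneg
  simp only [Pi.mul_apply, xi]
  rw [← ENNReal.ofReal_mul (by positivity), ← pow_add, ENNReal.ofReal_pow h0,
    ENNReal.ofReal_toReal ((gC_le_one U).trans_lt ENNReal.one_lt_top).ne, add_comm]

theorem nuM_univ (d : ℕ) : nuM d univ ≤ CC := by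
  have h := nuM_moment d 0
  simp only [pow_zero, ENNReal.ofReal_one, lintegral_one, zero_add] at h
  rw [h]
  exact MM_bound 0 d

instance (d : ℕ) : IsFiniteMeasure (nuM d) := ⟨(nuM_univ d).trans_lt CC_lt_top⟩

noncomputable def nuF (d : ℕ) : FiniteMeasure XX := ⟨nuM d, inferInstance⟩

theorem moment_real (j : ℕ) : ∃ c : ℝ, 0 < c ∧
    Tendsto (fun d => ∫ x, (x : ℝ) ^ j ∂(nuM d)) atTop (𝓝 c) := by
  obtain ⟨c, hc0, hct, hc⟩ := MM_lim j
  refine ⟨c.toReal, ENNReal.toReal_pos hc0.ne' hct, ?_⟩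
  have h1 : ∀ d, ∫ x, (x : ℝ) ^ j ∂(nuM d) = ((d : ℝ≥0∞) * 2 ^ d * MM (j + 2) d).toReal := by
    intro d
    rw [← nuM_moment, integral_eq_lintegral_of_nonneg_ae
      (Eventually.of_forall fun x => pow_nonneg x.2.1 j) (by fun_prop)]
  simp_rw [h1]
  exact (ENNReal.tendsto_toReal hct).comp hc

/-- the limit measure on the interval -/
theorem exists_nu : ∃ ν : FiniteMeasure XX,
    (∀ g : C(XX, ℝ), Tendsto (fun d => ∫ x, g x ∂(nuM d)) atTop (𝓝 (∫ x, g x ∂(ν : Measure XX)))) ∧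
    0 < ∫ x, (x : ℝ) ∂(ν : Measure XX) := by
  obtain ⟨C, hC⟩ : ∃ C : ℝ≥0, CC = C := ⟨CC.toNNReal, (ENNReal.coe_toNNReal CC_lt_top.ne).symm⟩
  have hK := isCompact_setOfPred_finiteMeasure_le_of_compactSpace (E := XX) C
  have hmem : ∀ d, (nuF d) ∈ {μ : FiniteMeasure XX | μ.mass ≤ C} := by
    intro d
    show (nuF d).mass ≤ C
    rw [← ENNReal.coe_le_coe, FiniteMeasure.ennreal_mass, ← hC]
    exact nuM_univ d
  let 𝒰 : Ultrafilter ℕ := Ultrafilter.of atTop
  have h𝒰 : (𝒰 : Filter ℕ) ≤ atTop := Ultrafilter.of_le atTop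
  obtain ⟨ν, hν, hν2⟩ := hK.ultrafilter_le_nhds (𝒰.map nuF) (by
    rw [Ultrafilter.coe_map, Filter.le_principal_iff, Filter.mem_map]
    exact Filter.univ_mem' hmem)
  have hconv : Tendsto nuF 𝒰 (𝓝 ν) := hν2
  rw [FiniteMeasure.tendsto_iff_forall_integral_tendsto] at hconv
  have hbd : ∀ g : C(XX, ℝ), Tendsto (fun d => ∫ x, g x ∂(nuM d)) 𝒰 (𝓝 (∫ x, g x ∂(ν : Measure XX))) := by
    intro g
    exact hconv (BoundedContinuousFunction.mkOfCompact g)
  have hmono : ∀ j : ℕ, Tendsto (fun d => ∫ x, (x : ℝ) ^ j ∂(nuM d)) atTop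
      (𝓝 (∫ x, (x : ℝ) ^ j ∂(ν : Measure XX))) ∧ 0 < ∫ x, (x : ℝ) ^ j ∂(ν : Measure XX) := by
    intro j
    obtain ⟨c, hc0, hc⟩ := moment_real j
    have h1 := hbd ⟨fun x => (x : ℝ) ^ j, by fun_prop⟩
    have h2 := tendsto_nhds_unique (hc.mono_left h𝒰) h1
    simp only [ContinuousMap.coe_mk] at h2
    rw [← h2]
    exact ⟨hc, hc0⟩
  have hpoly : ∀ p : Polynomial ℝ, Tendsto (fun d => ∫ x : XX, p.eval (x : ℝ) ∂(nuM d)) atTop
      (𝓝 (∫ x : XX, p.eval (x : ℝ) ∂(ν : Measure XX))) := by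
    intro p
    have hint : ∀ (μ : Measure XX) [IsFiniteMeasure μ], ∫ x : XX, p.eval (x : ℝ) ∂μ =
        ∑ i ∈ Finset.range (p.natDegree + 1), p.coeff i * ∫ x : XX, (x : ℝ) ^ i ∂μ := by
      intro μ _
      simp_rw [Polynomial.eval_eq_sum_range]
      rw [integral_finsetSum]
      · simp_rw [integral_const_mul]
      · intro i _
        refine Integrable.const_mul ?_ _
        refine Integrable.of_bound (by fun_prop) 1 (Eventually.of_forall fun x => ?_)
        rw [Real.norm_of_nonneg (pow_nonneg x.2.1 _)]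
        exact pow_le_one₀ x.2.1 x.2.2
    simp_rw [hint]
    exact tendsto_finsetSum _ fun i _ => (hmono i).1.const_mul _
  refine ⟨ν, fun g => ?_, by simpa using (hmono 1).2⟩
  rw [Metric.tendsto_atTop]
  intro ε hε
  obtain ⟨M, hM0, hM⟩ : ∃ M : ℝ, 0 < M ∧ (∀ d, (nuM d).real univ ≤ M) ∧
      (ν : Measure XX).real univ ≤ M := by
    refine ⟨C + 1, by positivity, fun d => ?_, ?_⟩
    · have h1 := nuM_univ d
      rw [hC] at h1
      have h2 := ENNReal.toReal_mono ENNReal.coe_ne_top h1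
      rw [measureReal_def]
      simp only [ENNReal.coe_toReal] at h2
      linarith
    · have h1 : ν.mass ≤ C := hν
      have h2 : (ν : Measure XX).real univ = ν.mass := rfl
      rw [h2]
      have : (ν.mass : ℝ) ≤ C := by exact_mod_cast h1
      linarith
  obtain ⟨p, hp⟩ := exists_polynomial_near_continuousMap 0 1 g (ε / (4 * M)) (by positivity)
  have hpx : ∀ x : XX, |g x - p.eval (x : ℝ)| ≤ ε / (4 * M) := by
    intro x
    have h1 := (ContinuousMap.norm_coe_le_norm (p.toContinuousMapOn (Icc 0 1) - g) x).trans hp.le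
    rw [Real.norm_eq_abs] at h1
    rw [abs_sub_comm]
    simpa using h1
  have happ : ∀ (μ : Measure XX) [IsFiniteMeasure μ], μ.real univ ≤ M →
      |∫ x, g x ∂μ - ∫ x : XX, p.eval (x : ℝ) ∂μ| ≤ ε / 4 := by
    intro μ _ hμ
    have hi1 : Integrable (fun x => g x) μ := g.continuous.integrable_of_hasCompactSupport
      (HasCompactSupport.of_compactSpace _)
    have hi2 : Integrable (fun x : XX => p.eval (x : ℝ)) μ :=
      (p.continuous.comp continuous_subtype_val).integrable_of_hasCompactSupport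
        (HasCompactSupport.of_compactSpace _)
    rw [← integral_sub hi1 hi2]
    have h1 := norm_integral_le_of_norm_le_const (μ := μ) (f := fun x : XX => g x - p.eval (x : ℝ))
      (C := ε / (4 * M)) (Eventually.of_forall fun x => hpx x)
    rw [Real.norm_eq_abs] at h1
    refine h1.trans ?_
    calc ε / (4 * M) * μ.real univ ≤ ε / (4 * M) * M := by gcongr
      _ = ε / 4 := by field_simp
  obtain ⟨N, hN⟩ := (Metric.tendsto_atTop.1 (hpoly p)) (ε / 4) (by positivity)
  refine ⟨N, fun d hd => ?_⟩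
  have h1 := happ (nuM d) (hM.1 d)
  have h2 := happ (ν : Measure XX) hM.2
  have h3 := hN d hd
  rw [Real.dist_eq] at h3 ⊢
  rw [abs_le] at h1 h2
  rw [abs_lt] at h3 ⊢
  constructor <;> linarith

end Pool.Agent.K6.H35.SA
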