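import Mathlib
import Pool.Agent.K6.H35.SA.Vague

set_option autoImplicit false

namespace Pool.Agent.K6.H35.SA

open MeasureTheory ProbabilityTheory Filter Topology Set
open scoped ENNReal NNReal

/-- `f x / x ^ 2` extended by `0` -/
noncomputable def gext (f : Ioi (0 : ℝ) → ℝ) : ℝ → ℝ :=
  Function.extend Subtype.val (fun x : Ioi (0 : ℝ) => f x * ((x : ℝ) ^ 2)⁻¹) 0

theorem gext_coe (f : Ioi (0 : ℝ) → ℝ) (x : Ioi (0 : ℝ)) : gext f x = f x * ((x : ℝ) ^ 2)⁻¹ := by
  unfold gext
  exact Subtype.val_injective.extend_apply _ _ x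

theorem gext_zero (f : Ioi (0 : ℝ) → ℝ) {x : ℝ} (hx : x ∉ Ioi (0 : ℝ)) : gext f x = 0 := by
  unfold gext
  rw [Function.extend_apply']
  · rfl
  · rintro ⟨y, rfl⟩
    exact hx y.2

theorem gext_cont (f : Ioi (0 : ℝ) → ℝ) (hf : Continuous f) (hs : HasCompactSupport f) :
    Continuous (gext f) := by
  unfold gext
  refine HasCompactSupport.continuous_extend_zero isOpen_Ioi ?_ (hs.mul_right)
  refine hf.mul (Continuous.inv₀ (by fun_prop) fun x => ?_)
  have : (0 : ℝ) < x := x.2
  positivity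

theorem int_muD (d : ℕ) (f : Ioi (0 : ℝ) → ℝ) (hf : Continuous f) (hs : HasCompactSupport f) :
    ∫ x, f x ∂(muD (d + 1)) = ∫ x : XX, gext f (x : ℝ) ∂(nuM (d + 1)) := by
  have hc := gext_cont f hf hs
  unfold muD nuM
  rw [integral_smul_measure, integral_smul_measure, map_alpha]
  congr 1
  have h1 : ∀ x : Ioi (0 : ℝ), f x = (fun y : ℝ => gext f y * y ^ 2) (x : ℝ) := by
    intro x
    have hx : (0 : ℝ) < x := x.2
    simp only [gext_coe]
    field_simp
  have hm : Measurable fun x : XX => (ENNReal.ofReal ((x : ℝ) ^ 2)).toReal • gext f (x : ℝ) := by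
    have h2 : Measurable fun x : XX => ENNReal.ofReal ((x : ℝ) ^ 2) := by fun_prop
    exact h2.ennreal_toReal.smul (hc.measurable.comp measurable_subtype_coe)
  rw [integral_congr_ae (Eventually.of_forall h1),
    integral_subtype_comap measurableSet_Ioi (fun y : ℝ => gext f y * y ^ 2),
    setIntegral_eq_integral_of_forall_compl_eq_zero (fun x hx => by
      rw [gext_zero f hx, zero_mul]), integral_map measurable_gC.ennreal_toReal.aemeasurable
        (by fun_prop), integral_withDensity_eq_integral_toReal_smul (by fun_prop)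
        (Eventually.of_forall fun x => ENNReal.ofReal_lt_top),
    integral_map (measurable_xi _).aemeasurable hm.aestronglyMeasurable]
  refine integral_congr_ae (Eventually.of_forall fun U => ?_)
  simp only [xi, smul_eq_mul]
  rw [ENNReal.toReal_ofReal (by positivity), mul_comm]

/-- the limit measure -/
noncomputable def muL (ν : Measure XX) : Measure (Ioi (0 : ℝ)) :=
  ((ν.map ((↑) : XX → ℝ)).comap ((↑) : Ioi (0 : ℝ) → ℝ)).withDensity
    fun x => ENNReal.ofReal (((x : ℝ) ^ 2)⁻¹)

theorem int_muL (ν : Measure XX) (f : Ioi (0 : ℝ) → ℝ) (hf : Continuous f)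
    (hs : HasCompactSupport f) : ∫ x, f x ∂(muL ν) = ∫ x : XX, gext f (x : ℝ) ∂ν := by
  have hc := gext_cont f hf hs
  unfold muL
  rw [integral_withDensity_eq_integral_toReal_smul (by fun_prop)
        (Eventually.of_forall fun x => ENNReal.ofReal_lt_top)]
  have h1 : ∀ x : Ioi (0 : ℝ), (ENNReal.ofReal (((x : ℝ) ^ 2)⁻¹)).toReal • f x
      = (fun y : ℝ => gext f y) (x : ℝ) := by
    intro x
    have hx : (0 : ℝ) < x := x.2
    simp only [gext_coe]
    rw [ENNReal.toReal_ofReal (by positivity), smul_eq_mul, mul_comm]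
  rw [integral_congr_ae (Eventually.of_forall h1), integral_subtype_comap measurableSet_Ioi,
    setIntegral_eq_integral_of_forall_compl_eq_zero (fun x hx => gext_zero f hx),
    integral_map measurable_subtype_coe.aemeasurable (by fun_prop)]

theorem comap_finite (m : Measure ℝ) [IsFiniteMeasure m] :
    IsFiniteMeasure (m.comap ((↑) : Ioi (0 : ℝ) → ℝ)) := by
  constructor
  rw [comap_subtype_coe_apply measurableSet_Ioi]
  exact measure_lt_top _ _

theorem muL_locally_finite (ν : Measure XX) [IsFiniteMeasure ν] :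
    IsLocallyFiniteMeasure (muL ν) := by
  unfold muL
  have := comap_finite (ν.map ((↑) : XX → ℝ))
  have hc : Continuous fun x : Ioi (0 : ℝ) => ((x : ℝ) ^ 2)⁻¹ := by
    refine Continuous.inv₀ (by fun_prop) fun x => ?_
    have : (0 : ℝ) < x := x.2
    positivity
  exact IsLocallyFiniteMeasure.withDensity_ofReal hc

theorem muL_ne_zero (ν : Measure XX) (h : 0 < ∫ x, (x : ℝ) ∂ν) : muL ν ≠ 0 := by
  intro h0
  unfold muL at h0
  rw [withDensity_eq_zero_iff (by fun_prop)] at h0
  have h1 : ∀ᵐ x ∂((ν.map ((↑) : XX → ℝ)).comap ((↑) : Ioi (0 : ℝ) → ℝ)), False := by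
    filter_upwards [h0] with x hx
    have hx0 : (0 : ℝ) < x := x.2
    have h2 : 0 < ENNReal.ofReal (((x : ℝ) ^ 2)⁻¹) := ENNReal.ofReal_pos.2 (by positivity)
    exact h2.ne' hx
  rw [ae_iff] at h1
  simp only [not_false_eq_true, ofPred_true] at h1
  rw [comap_subtype_coe_apply measurableSet_Ioi, image_univ, Subtype.range_coe,
    Measure.map_apply measurable_subtype_coe measurableSet_Ioi] at h1
  have h3 : ∫ x, (x : ℝ) ∂ν = 0 := by
    refine integral_eq_zero_of_ae ?_
    rw [Filter.EventuallyEq, ae_iff]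
    refine measure_mono_null ?_ h1
    intro x hx
    simp only [mem_ofPred_eq, Pi.zero_apply] at hx
    exact lt_of_le_of_ne x.2.1 (Ne.symm hx)
  exact h.ne' h3

/-- The measures `μ_d` converge vaguely to a nonzero locally finite measure. -/
theorem main : ∃ μ : Measure (Ioi (0 : ℝ)), IsLocallyFiniteMeasure μ ∧ μ ≠ 0 ∧
    ∀ f : Ioi (0 : ℝ) → ℝ, Continuous f → HasCompactSupport f →
      Tendsto (fun d : ℕ => ∫ x, f x ∂(muD d)) atTop (𝓝 (∫ x, f x ∂μ)) := by
  obtain ⟨ν, hν, hpos⟩ := exists_nu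
  refine ⟨muL ν, muL_locally_finite _, muL_ne_zero _ hpos, fun f hf hs => ?_⟩
  rw [← tendsto_add_atTop_iff_nat 1, int_muL _ f hf hs]
  have h1 := hν ⟨fun x => gext f (x : ℝ), (gext_cont f hf hs).comp continuous_subtype_val⟩
  rw [← tendsto_add_atTop_iff_nat 1] at h1
  refine h1.congr fun d => ?_
  rw [int_muD d f hf hs]
  rfl

end Pool.Agent.K6.H35.SA
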